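import Pool.Agent.Helper78.DC.Low

/-! The planarization constant of graphs of maximum degree at most four and large girth
(problem MP_8e7d5e_co). -/

set_option autoImplicit false

namespace Pool.Agent.Helper78.DC

open Classical Pool.Agent.Helper60.Plz Pool.Agent.Helper93.Plz

noncomputable section

/-- The reals `μ` such that for every `ε > 0` every sufficiently large connected graph `G` of maximum
degree at most `d` and girth at least `g` has `p(G) ≤ (μ + ε) |V(G)|`. -/
def PS (d g : ℕ) : Set ℝ :=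
  {μ : ℝ | ∀ ε > 0, ∃ N : ℕ, ∀ (V : Type) (_ : Fintype V) (G : SimpleGraph V),
    G.Connected → (∀ v, (G.neighborSet v).ncard ≤ d) → (g : ℕ∞) ≤ G.egirth → N ≤ Fintype.card V →
      (planarization G : ℝ) ≤ (μ + ε) * Fintype.card V}

theorem girth_iff {V : Type} [Fintype V] {G : SimpleGraph V} {g : ℕ} :
    Girth G g ↔ (g : ℕ∞) ≤ G.egirth := by
  rw [SimpleGraph.le_egirth]
  unfold Girth
  simp only [Nat.cast_le]

/-- there are large connected four-regular graphs of large girth -/
theorem exists_large (L : ℕ) : ∃ (W : Type) (_ : Fintype W) (K : SimpleGraph W), K.Connected ∧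
    (∀ v, (nb K v).card = 4) ∧ Girth K L ∧ L ≤ Fintype.card W := by
  obtain ⟨Γ, iG, iF, π, hπ, hw⟩ :=
    Pool.Agent.Helper89.Plz.packetD (Sl (⊥ : SimpleGraph Unit)) inferInstance (L + 2)
  have h1 : ∀ e, π e ≠ 1 := by
    intro e
    have := hw [e] (by simp) (by simp) (List.isChain_singleton e)
    simpa using this
  have h2 : ∀ e f, e ≠ f → π e * π f ≠ 1 := by
    intro e f hef
    have := hw [e, f] (by simp) (by simp) (by simp [hef])
    simpa using this
  have hnb := nb_cov (G := (⊥ : SimpleGraph Unit)) (π := π) (hπ := hπ) (by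
    intro v
    refine (Finset.card_le_card (Finset.subset_univ _)).trans ?_
    rw [Finset.card_univ]; simp) h1 h2
  have hg0 : Girth (⊥ : SimpleGraph Unit) (L + 2) := by
    intro u c hc
    exact absurd hc (SimpleGraph.isAcyclic_bot c)
  have hg := girth_cov (π := π) (hπ := hπ) hg0 hw
  set K0 := cov (⊥ : SimpleGraph Unit) π hπ with hK0
  set C := K0.connectedComponentMk ((), 1) with hC
  have hcl : ∀ x ∈ C.supp, ∀ y, K0.Adj x y → y ∈ C.supp := by
    intro x hx y hxy
    exact (SimpleGraph.ConnectedComponent.mem_supp_congr_adj C hxy).1 hx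
  have hn4 : ∀ v : C.supp, (nb (K0.induce C.supp) v).card = 4 := by
    intro v
    rw [← hnb v.1]
    apply Finset.card_bij (s := nb (K0.induce C.supp) v) (t := nb K0 v.1)
      (fun (w : C.supp) _ => (w : Unit × Γ))
    · intro w hw
      exact (mem_nb _).2 ((mem_nb _).1 hw : (K0.induce C.supp).Adj v w)
    · intro a _ b _ h
      exact Subtype.ext h
    · intro b hb
      have hb' := (mem_nb _).1 hb
      exact ⟨⟨b, hcl v.1 v.2 b hb'⟩, (mem_nb _).2 hb', rfl⟩
  have hgC : Girth (K0.induce C.supp) (L + 2) := girth_induce hg C.supp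
  refine ⟨C.supp, inferInstance, K0.induce C.supp,
    SimpleGraph.ConnectedComponent.connected_toSimpleGraph C, hn4,
    fun u c hc => le_trans (by omega) (hgC u c hc), ?_⟩
  by_contra hlt
  push Not at hlt
  have e1 := eIn_univ hn4
  have hne : (Finset.univ : Finset C.supp).Nonempty :=
    ⟨⟨((), 1), rfl⟩, Finset.mem_univ _⟩
  have e2 := sparse hgC hne (by rw [Finset.card_univ]; omega)
  rw [Finset.card_univ] at e2
  have e3 : 0 < Fintype.card C.supp := Fintype.card_pos_iff.2 ⟨⟨((), 1), rfl⟩⟩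
  omega

theorem lower {g : ℕ} {μ : ℝ} (hμ : μ ∈ PS 4 g) : 1 / 3 ≤ μ := by
  by_contra hlt
  push Not at hlt
  set δ : ℝ := 1 / 3 - μ with hδ
  have hδ0 : 0 < δ := by rw [hδ]; linarith
  obtain ⟨N, hN⟩ := hμ (δ / 2) (by positivity)
  obtain ⟨m, hm⟩ := exists_nat_gt (4 / (3 * δ) + 1)
  have hm0 : (1 : ℝ) < m := lt_of_le_of_lt (by
    have : 0 ≤ 4 / (3 * δ) := by positivity
    linarith) hm
  have hm1 : 1 ≤ m := by exact_mod_cast hm0.le
  have hm2 : 4 < 3 * δ * (m - 1) := by
    have : 4 / (3 * δ) < m - 1 := by linarith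
    rw [div_lt_iff₀ (by positivity)] at this
    linarith
  obtain ⟨W, iW, K, hK, h4, hg, hc⟩ := exists_large (g + N + 10 * m + 1)
  have hpl := hN W iW K hK (fun v => by rw [← nb_ncard, h4 v])
    (girth_iff.1 fun u c hc => le_trans (by omega) (hg u c hc)) (by omega)
  obtain ⟨X, hX1, hX2⟩ := Nat.sInf_mem (planarization_set_nonempty K)
  have hX1' : X.card = planarization K := hX1
  rw [← hX1'] at hpl
  have hn0 : (0 : ℝ) < Fintype.card W := by
    have : 0 < Fintype.card W := by omega
    exact_mod_cast this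
  have hXn : X.card < Fintype.card W := by
    have : (X.card : ℝ) < Fintype.card W := by
      have h3 : μ + δ / 2 < 1 := by rw [hδ]; linarith
      nlinarith
    exact_mod_cast this
  have hs := planar_sparse hm1 (by omega) hg h4 hX2 hXn
  have hs' : (m : ℝ) * (4 * Fintype.card W) <
      2 * (m + 3) * (Fintype.card W - X.card) + m * (8 * X.card) := by
    have : ((Fintype.card W - X.card : ℕ) : ℝ) = Fintype.card W - X.card := Nat.cast_sub hXn.le
    rw [← this]
    exact_mod_cast hs
  set n : ℝ := (Fintype.card W : ℝ) with hn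
  set x : ℝ := (X.card : ℝ) with hx
  have h5 : (2 * m - 6) * n < (6 * m - 6) * x := by linarith
  have h6 : (6 * m - 6 : ℝ) * x ≤ (6 * m - 6) * ((μ + δ / 2) * n) := by
    apply mul_le_mul_of_nonneg_left hpl
    linarith
  have h7 : μ + δ / 2 = 1 / 3 - δ / 2 := by rw [hδ]; ring
  rw [h7] at h6
  have h8 : (2 * m - 6 : ℝ) * n < ((6 * m - 6) * (1 / 3 - δ / 2)) * n := by linarith
  have h9 := lt_of_mul_lt_mul_right h8 hn0.le
  nlinarith

theorem max_four' {V : Type} [Fintype V] {G : SimpleGraph V} {g : ℕ} (h18 : 18 ≤ g)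
    (h4 : ∀ v, (G.neighborSet v).ncard ≤ 4) (X : Finset V)
    (hX : ∀ (u : V) (c : G.Walk u u), c.IsCycle → c.length < g → ∃ x ∈ c.support, x ∈ X) :
    ∃ T : Finset V, X ⊆ T ∧ (T.card : ℝ) ≤ X.card + (1 / 3 + 4 / g) * Fintype.card V ∧
      ∀ (u : V) (c : G.Walk u u), c.IsCycle → ∃ x ∈ c.support, x ∈ T := by
  -- remove the edges at the vertices of `X`
  set H : SimpleGraph V :=
    { Adj := fun a b => G.Adj a b ∧ a ∉ X ∧ b ∉ X
      symm := ⟨fun a b h => ⟨h.1.symm, h.2.2, h.2.1⟩⟩
      loopless := ⟨fun a h => h.1.ne rfl⟩ } with hH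
  have hle : H ≤ G := fun a b h => h.1
  have hsup : ∀ {u v : V} (p : H.Walk u v), 1 ≤ p.length → ∀ x ∈ p.support, x ∉ X := by
    intro u v p hp x hx
    obtain ⟨i, hi, hil⟩ := SimpleGraph.Walk.mem_support_iff_exists_getVert.1 hx
    by_cases h0 : i = 0
    · have := p.adj_getVert_succ (i := 0) (by omega)
      rw [← hi, h0]
      exact this.2.1
    · have := p.adj_getVert_succ (i := i - 1) (by omega)
      rw [show i - 1 + 1 = i by omega, hi] at this
      exact this.2.2
  have hgH : Girth H g := by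
    intro u c hc
    by_contra hlt
    push Not at hlt
    have h3 := hc.three_le_length
    have hc' : (c.mapLe hle).IsCycle := (SimpleGraph.Walk.mapLe_isCycle hle).2 hc
    obtain ⟨x, hx, hxX⟩ := hX u (c.mapLe hle) hc' (by
      rw [SimpleGraph.Walk.length_map]; exact hlt)
    rw [SimpleGraph.Walk.support_mapLe_eq_support] at hx
    exact hsup c (by omega) x hx hxX
  have h4H : ∀ v, (nb H v).card ≤ 4 := by
    intro v
    refine le_trans (Finset.card_le_card ?_) (by rw [nb_ncard (G := G)]; exact h4 v)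
    intro y hy
    exact (mem_nb G).2 (hle ((mem_nb H).1 hy))
  obtain ⟨T, hT, hc⟩ := max_four h18 hgH h4H
  refine ⟨X ∪ T, Finset.subset_union_left, ?_, ?_⟩
  · have : ((X ∪ T).card : ℝ) ≤ X.card + T.card := by exact_mod_cast Finset.card_union_le X T
    linarith
  · intro u c hcy
    by_contra hcon
    push Not at hcon
    have hcX : ∀ x ∈ c.support, x ∉ X := fun x hx h => hcon x hx (Finset.mem_union_left _ h)
    have he : ∀ e ∈ c.edges, e ∈ H.edgeSet := by
      intro e
      induction e with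
      | _ a b =>
        intro he
        exact ⟨c.adj_of_mem_edges he, hcX a (c.fst_mem_support_of_mem_edges he),
          hcX b (c.snd_mem_support_of_mem_edges he)⟩
    obtain ⟨x, hx, hxT⟩ := hc _ (c.transfer H he) (hcy.transfer he)
    rw [SimpleGraph.Walk.support_transfer] at hx
    exact hcon x hx (Finset.mem_union_right _ hxT)

theorem upper {g : ℕ} (h18 : 18 ≤ g) : (1 / 3 + 4 / g : ℝ) ∈ PS 4 g := by
  intro ε hε
  refine ⟨0, fun V _ G _ h4 hg _ => ?_⟩
  obtain ⟨T, hT, hc⟩ := max_four h18 (girth_iff.2 hg) (fun v => by rw [nb_ncard]; exact h4 v)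
  have h1 : (planarization G : ℝ) ≤ T.card := by exact_mod_cast planarization_le_of hc
  have h2 : (0 : ℝ) ≤ Fintype.card V := Nat.cast_nonneg _
  nlinarith

end

end Pool.Agent.Helper78.DC
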