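import Pool.Agent.Helper78.DC.Local2

/-! Optimal orientations of graphs of large girth (problem MP_8e7d5e_co). -/

set_option autoImplicit false

namespace Pool.Agent.Helper78.DC

open Classical

noncomputable section

variable {V : Type} [Fintype V] (G : SimpleGraph V)

/-- neighbours -/
def nb (v : V) : Finset V := Finset.univ.filter fun y => G.Adj v y

theorem mem_nb {v y : V} : y ∈ nb G v ↔ G.Adj v y := by simp [nb]

/-- cost at `u` when the edges in `X` are flipped -/
def cost (o : V → V → Bool) (X : Set (Sym2 V)) (u : V) : ℤ :=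
  w (oc (nb G u) (fun y => o y u) fun y => decide (s(u, y) ∈ X))

/-- cost at `u` without flips -/
def cost0 (o : V → V → Bool) (u : V) : ℤ := w (oc (nb G u) (fun y => o y u) fun _ => false)

/-- ball around `x` in `G - v` -/
def Ball (r : ℕ) (x v : V) : Set V := {u | ∃ p : G.Walk x u, p.length ≤ r ∧ v ∉ p.support}

/-- all cycles have length at least `g` -/
def Girth (g : ℕ) : Prop := ∀ (u : V) (c : G.Walk u u), c.IsCycle → g ≤ c.length

variable {G}

theorem oc_congr {N : Finset V} {a φ ψ : V → Bool} (h : ∀ y ∈ N, φ y = ψ y) :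
    oc N a φ = oc N a ψ := by
  unfold oc
  congr 1
  apply Finset.filter_congr
  intro y hy
  rw [h y hy]

theorem ball_disj {r : ℕ} (hg : Girth G (2 * r + 3)) {v y y' u : V} (hy : G.Adj v y)
    (hy' : G.Adj v y') (h1 : u ∈ Ball G r y v) (h2 : u ∈ Ball G r y' v) : y = y' := by
  by_contra hne
  obtain ⟨p, hp, hpv⟩ := h1
  obtain ⟨q, hq, hqv⟩ := h2
  set t := (p.append q.reverse).bypass with ht
  have htp : t.IsPath := SimpleGraph.Walk.bypass_isPath _
  have htl : t.length ≤ 2 * r := by
    refine (SimpleGraph.Walk.length_bypass_le _).trans ?_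
    rw [SimpleGraph.Walk.length_append, SimpleGraph.Walk.length_reverse]
    omega
  have htv : v ∉ t.support := by
    intro h
    have := SimpleGraph.Walk.support_bypass_subset _ h
    rw [SimpleGraph.Walk.mem_support_append_iff, SimpleGraph.Walk.support_reverse,
      List.mem_reverse] at this
    rcases this with h | h
    · exact hpv h
    · exact hqv h
  have hc : (SimpleGraph.Walk.cons hy (t.concat hy'.symm)).IsCycle := by
    rw [SimpleGraph.Walk.cons_isCycle_iff]
    refine ⟨?_, ?_⟩
    · rw [SimpleGraph.Walk.concat_isPath_iff]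
      exact ⟨htp, htv⟩
    · rw [SimpleGraph.Walk.edges_concat, List.concat_eq_append, List.mem_append, List.mem_singleton]
      rintro (h | h)
      · exact htv (SimpleGraph.Walk.fst_mem_support_of_mem_edges _ h)
      · rw [Sym2.eq_iff] at h
        rcases h with h | h
        · exact hy'.ne h.1
        · exact hne h.2
  have := hg v _ hc
  rw [SimpleGraph.Walk.length_cons, SimpleGraph.Walk.length_concat] at this
  omega

theorem self_mem_ball {r : ℕ} {x v : V} (h : x ≠ v) : x ∈ Ball G r x v :=
  ⟨SimpleGraph.Walk.nil, by simp, by simpa using h.symm⟩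

/-- the flip sets behind `y` as seen from `v` -/
structure Fs (G : SimpleGraph V) (r : ℕ) (y v : V) (X : Set (Sym2 V)) : Prop where
  self : s(y, v) ∈ X
  root : ∀ b, s(v, b) ∈ X → b = y
  supp : ∀ a b, s(a, b) ∈ X → a ≠ v → a ∈ Ball G r y v

theorem glue_root {r : ℕ} {v : V} {F : Finset V} {X : V → Set (Sym2 V)}
    (hX : ∀ y ∈ F, Fs G r y v (X y)) (b : V) : s(v, b) ∈ (⋃ y ∈ F, X y) ↔ b ∈ F := by
  simp only [Set.mem_iUnion]
  constructor
  · rintro ⟨y, hy, h⟩
    rw [(hX y hy).root b h]; exact hy
  · intro hb
    exact ⟨b, hb, by rw [Sym2.eq_swap]; exact (hX b hb).self⟩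

theorem cost_eq_cost0 {o : V → V → Bool} {X : Set (Sym2 V)} {u : V}
    (h : ∀ b, s(u, b) ∉ X) : cost G o X u = cost0 G o u := by
  unfold cost cost0
  congr 1
  apply oc_congr
  intro y _
  simp [h y]

theorem cost_congr {o : V → V → Bool} {X Y : Set (Sym2 V)} {u : V}
    (h : ∀ b, s(u, b) ∈ X ↔ s(u, b) ∈ Y) : cost G o X u = cost G o Y u := by
  unfold cost
  congr 1
  apply oc_congr
  intro y _
  simp [h y]

theorem glue_cost {r : ℕ} (hg : Girth G (2 * r + 3)) {v : V} {F : Finset V} (hF : F ⊆ nb G v)
    {X : V → Set (Sym2 V)} (hX : ∀ y ∈ F, Fs G r y v (X y)) (o : V → V → Bool) (u : V)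
    (hu : u ≠ v) : cost G o (⋃ y ∈ F, X y) u - cost0 G o u =
      ∑ y ∈ F, (cost G o (X y) u - cost0 G o u) := by
  by_cases h : ∃ y ∈ F, u ∈ Ball G r y v
  · obtain ⟨y, hy, huy⟩ := h
    have hz : ∀ y' ∈ F, y' ≠ y → ∀ b, s(u, b) ∉ X y' := by
      intro y' hy' hne b hb
      apply hne
      exact ball_disj hg ((mem_nb G).1 (hF hy')) ((mem_nb G).1 (hF hy))
        ((hX y' hy').supp u b hb hu) huy
    rw [Finset.sum_eq_single y]
    · rw [cost_congr (Y := X y)]
      intro b
      simp only [Set.mem_iUnion]
      constructor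
      · rintro ⟨y', hy', hb⟩
        by_cases hne : y' = y
        · rwa [← hne]
        · exact absurd hb (hz y' hy' hne b)
      · intro hb; exact ⟨y, hy, hb⟩
    · intro y' hy' hne
      rw [cost_eq_cost0 (hz y' hy' hne), sub_self]
    · intro h; exact absurd hy h
  · push Not at h
    have hz : ∀ y' ∈ F, ∀ b, s(u, b) ∉ X y' := fun y' hy' b hb =>
      h y' hy' ((hX y' hy').supp u b hb hu)
    rw [cost_eq_cost0, sub_self]
    · symm
      apply Finset.sum_eq_zero
      intro y' hy'
      rw [cost_eq_cost0 (hz y' hy'), sub_self]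
    · intro b hb
      simp only [Set.mem_iUnion] at hb
      obtain ⟨y', hy', hb⟩ := hb
      exact hz y' hy' b hb

variable (G) in
/-- flip costs -/
def D (o : V → V → Bool) : ℕ → V → V → ℤ
  | 0, x, v => w (oc (nb G x) (fun y => o y x) fun y => decide (y = v)) - cost0 G o x
  | r + 1, x, v => (Finset.univ.filter fun φ : V → Bool => φ v = true).inf'
      ⟨fun _ => true, by simp⟩
      (vl (nb G x) (fun y => o y x) (fun z => D o r z x) v)

theorem D_succ_spec (o : V → V → Bool) (r : ℕ) (x v : V) :
    (∃ φ : V → Bool, φ v = true ∧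
      D G o (r + 1) x v = vl (nb G x) (fun y => o y x) (fun z => D G o r z x) v φ) ∧
    ∀ φ : V → Bool, φ v = true →
      D G o (r + 1) x v ≤ vl (nb G x) (fun y => o y x) (fun z => D G o r z x) v φ := by
  constructor
  · obtain ⟨φ, hφ, h⟩ := Finset.exists_mem_eq_inf'
      (H := (⟨fun _ => true, by simp⟩ :
        (Finset.univ.filter fun φ : V → Bool => φ v = true).Nonempty))
      (f := vl (nb G x) (fun y => o y x) (fun z => D G o r z x) v)
    exact ⟨φ, (Finset.mem_filter.1 hφ).2, h⟩
  · intro φ hφ
    exact Finset.inf'_le _ (by simp [hφ])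

theorem real (o : V → V → Bool) : ∀ (r : ℕ), Girth G (2 * r + 3) → ∀ x v : V, G.Adj x v →
    ∃ X : Set (Sym2 V), Fs G r x v X ∧
      ∑ u ∈ Finset.univ.erase v, (cost G o X u - cost0 G o u) = D G o r x v := by
  intro r
  induction r with
  | zero =>
    intro _ x v hxv
    refine ⟨{s(x, v)}, ⟨rfl, ?_, ?_⟩, ?_⟩
    · intro b hb
      rw [Set.mem_singleton_iff, Sym2.eq_iff] at hb
      rcases hb with h | h
      · exact absurd h.1 hxv.ne.symm
      · exact h.2
    · intro a b hab hav
      rw [Set.mem_singleton_iff, Sym2.eq_iff] at hab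
      rcases hab with h | h
      · rw [h.1]; exact self_mem_ball hxv.ne
      · exact absurd h.1 hav
    · rw [Finset.sum_eq_single x]
      · unfold D cost
        congr 2
        apply oc_congr
        intro y _
        congr 1
        rw [Set.mem_singleton_iff, Sym2.eq_iff]
        apply propext
        constructor
        · rintro (h | h)
          · exact h.2
          · exact absurd h.1 hxv.ne
        · intro h; exact Or.inl ⟨rfl, h⟩
      · intro u hu hux
        rw [cost_eq_cost0, sub_self]
        intro b hb
        rw [Set.mem_singleton_iff, Sym2.eq_iff] at hb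
        rcases hb with h | h
        · exact hux h.1
        · exact (Finset.ne_of_mem_erase hu) h.1
      · intro h
        exact absurd (Finset.mem_erase.2 ⟨hxv.ne, Finset.mem_univ _⟩) h
  | succ r ih =>
    intro hg x v hxv
    have hg' : Girth G (2 * r + 3) := fun u c hc => le_trans (by omega) (hg u c hc)
    obtain ⟨⟨φ, hφ, hD⟩, -⟩ := D_succ_spec (G := G) o r x v
    set F : Finset V := ((nb G x).erase v).filter fun y => φ y = true with hFdef
    have hFn : F ⊆ nb G x := (Finset.filter_subset _ _).trans (Finset.erase_subset _ _)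
    have hvF : v ∉ F := by
      intro h
      exact (Finset.ne_of_mem_erase (Finset.mem_filter.1 h).1) rfl
    have hex : ∀ y : V, ∃ X : Set (Sym2 V), y ∈ F → Fs G r y x X ∧
        ∑ u ∈ Finset.univ.erase x, (cost G o X u - cost0 G o u) = D G o r y x := by
      intro y
      by_cases hy : y ∈ F
      · obtain ⟨X, hX⟩ := ih hg' y x ((mem_nb G).1 (hFn hy)).symm
        exact ⟨X, fun _ => hX⟩
      · exact ⟨∅, fun h => absurd h hy⟩
    choose X hX using hex
    have hXF : ∀ y ∈ F, Fs G r y x (X y) := fun y hy => (hX y hy).1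
    have hvB : ∀ y ∈ F, v ∉ Ball G r y x := by
      intro y hy hv
      have := ball_disj hg' ((mem_nb G).1 (hFn hy)) hxv hv (self_mem_ball hxv.ne.symm)
      rw [this] at hy
      exact hvF hy
    have hvX : ∀ y ∈ F, ∀ b, s(v, b) ∉ X y := fun y hy b hb =>
      hvB y hy ((hXF y hy).supp v b hb hxv.ne.symm)
    set U := ⋃ y ∈ F, X y with hU
    have hvU : ∀ b, s(v, b) ∉ U := by
      intro b hb
      rw [hU] at hb
      simp only [Set.mem_iUnion] at hb
      obtain ⟨y, hy, hb⟩ := hb
      exact hvX y hy b hb
    refine ⟨insert s(x, v) U, ⟨Set.mem_insert _ _, ?_, ?_⟩, ?_⟩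
    · intro b hb
      rcases hb with h | h
      · rw [Sym2.eq_iff] at h
        rcases h with h | h
        · exact absurd h.1 hxv.ne.symm
        · exact h.2
      · exact absurd h (hvU b)
    · intro a b hab hav
      rcases hab with h | h
      · rw [Sym2.eq_iff] at h
        rcases h with h | h
        · rw [h.1]; exact self_mem_ball hxv.ne
        · exact absurd h.1 hav
      · by_cases hax : a = x
        · rw [hax]; exact self_mem_ball hxv.ne
        · rw [hU] at h
          simp only [Set.mem_iUnion] at h
          obtain ⟨y, hy, hb⟩ := h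
          obtain ⟨p, hp, hpx⟩ := (hXF y hy).supp a b hb hax
          refine ⟨SimpleGraph.Walk.cons ((mem_nb G).1 (hFn hy)) p, ?_, ?_⟩
          · rw [SimpleGraph.Walk.length_cons]; omega
          · rw [SimpleGraph.Walk.support_cons, List.mem_cons, not_or]
            refine ⟨hxv.ne.symm, fun hv => hvB y hy ?_⟩
            refine ⟨p.takeUntil v hv, (SimpleGraph.Walk.length_takeUntil_le p hv).trans hp, ?_⟩
            intro hx
            exact hpx (SimpleGraph.Walk.support_takeUntil_subset p hv hx)
    · have h1 : Finset.univ.erase v = insert x ((Finset.univ.erase v).erase x) := by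
        rw [Finset.insert_erase (Finset.mem_erase.2 ⟨hxv.ne, Finset.mem_univ _⟩)]
      have hcx : cost G o (insert s(x, v) U) x = w (oc (nb G x) (fun y => o y x) φ) := by
        unfold cost
        congr 1
        apply oc_congr
        intro y hy
        have e1 : s(x, y) ∈ U ↔ y ∈ F := glue_root hXF y
        have e2 : s(x, y) = s(x, v) ↔ y = v := by
          rw [Sym2.eq_iff]
          constructor
          · rintro (h | h)
            · exact h.2
            · exact absurd h.1 hxv.ne
          · intro h; exact Or.inl ⟨rfl, h⟩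
        have e3 : s(x, y) ∈ insert s(x, v) U ↔ φ y = true := by
          rw [Set.mem_insert_iff, e1, e2]
          constructor
          · rintro (h | h)
            · rw [h]; exact hφ
            · exact (Finset.mem_filter.1 h).2
          · intro h
            by_cases hyv : y = v
            · exact Or.inl hyv
            · exact Or.inr (Finset.mem_filter.2 ⟨Finset.mem_erase.2 ⟨hyv, hy⟩, h⟩)
        cases hh : φ y
        · rw [hh] at e3
          simpa using e3
        · rw [hh] at e3
          simpa using e3
      have hcu : ∀ u ∈ (Finset.univ.erase v).erase x, cost G o (insert s(x, v) U) u - cost0 G o u =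
          ∑ y ∈ F, (cost G o (X y) u - cost0 G o u) := by
        intro u hu
        have hux := Finset.ne_of_mem_erase hu
        have huv := Finset.ne_of_mem_erase (Finset.mem_of_mem_erase hu)
        rw [← glue_cost hg' hFn hXF o u hux, cost_congr (Y := U)]
        intro b
        rw [Set.mem_insert_iff]
        constructor
        · rintro (h | h)
          · rw [Sym2.eq_iff] at h
            rcases h with h | h
            · exact absurd h.1 hux
            · exact absurd h.1 huv
          · exact h
        · exact Or.inr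
      rw [h1, Finset.sum_insert (Finset.notMem_erase _ _), Finset.sum_congr rfl hcu, hcx,
        Finset.sum_comm, hD]
      unfold vl cost0
      congr 1
      have h2 : ∀ y ∈ F, ∑ u ∈ (Finset.univ.erase v).erase x, (cost G o (X y) u -
          w (oc (nb G u) (fun y => o y u) fun _ => false)) = D G o r y x := by
        intro y hy
        rw [← (hX y hy).2]
        have h3 : Finset.univ.erase x = insert v ((Finset.univ.erase v).erase x) := by
          rw [Finset.erase_right_comm,
            Finset.insert_erase (Finset.mem_erase.2 ⟨hxv.ne.symm, Finset.mem_univ _⟩)]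
        rw [h3, Finset.sum_insert (by simp), cost_eq_cost0 (hvX y hy), sub_self, zero_add]
        rfl
      rw [Finset.sum_congr rfl h2, hFdef, Finset.sum_filter]

/-- optimality -/
def Opt (G : SimpleGraph V) (o : V → V → Bool) : Prop :=
  ∀ X : Set (Sym2 V), ∑ u, cost0 G o u ≤ ∑ u, cost G o X u

theorem opt_local {o : V → V → Bool} (ho : Opt G o) {r : ℕ} (hg : Girth G (2 * r + 3)) (v : V)
    (φ : V → Bool) : cost0 G o v ≤ w (oc (nb G v) (fun y => o y v) φ) +
      ∑ y ∈ nb G v, if φ y then D G o r y v else 0 := by
  set F : Finset V := (nb G v).filter fun y => φ y = true with hFdef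
  have hFn : F ⊆ nb G v := Finset.filter_subset _ _
  have hex : ∀ y : V, ∃ X : Set (Sym2 V), y ∈ F → Fs G r y v X ∧
      ∑ u ∈ Finset.univ.erase v, (cost G o X u - cost0 G o u) = D G o r y v := by
    intro y
    by_cases hy : y ∈ F
    · obtain ⟨X, hX⟩ := real o r hg y v ((mem_nb G).1 (hFn hy)).symm
      exact ⟨X, fun _ => hX⟩
    · exact ⟨∅, fun h => absurd h hy⟩
  choose X hX using hex
  have hXF : ∀ y ∈ F, Fs G r y v (X y) := fun y hy => (hX y hy).1
  have h := ho (⋃ y ∈ F, X y)
  have h' : 0 ≤ ∑ u, (cost G o (⋃ y ∈ F, X y) u - cost0 G o u) := by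
    rw [Finset.sum_sub_distrib]; linarith
  rw [← Finset.insert_erase (Finset.mem_univ v), Finset.sum_insert (Finset.notMem_erase _ _)] at h'
  have hcv : cost G o (⋃ y ∈ F, X y) v = w (oc (nb G v) (fun y => o y v) φ) := by
    unfold cost
    congr 1
    apply oc_congr
    intro y hy
    have e1 : s(v, y) ∈ (⋃ y ∈ F, X y) ↔ φ y = true := by
      rw [glue_root hXF y]
      simp [hFdef, hy]
    cases hh : φ y
    · rw [hh] at e1
      simpa using e1
    · rw [hh] at e1
      simpa using e1
  have hcu : ∀ u ∈ Finset.univ.erase v, cost G o (⋃ y ∈ F, X y) u - cost0 G o u =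
      ∑ y ∈ F, (cost G o (X y) u - cost0 G o u) := fun u hu =>
    glue_cost hg hFn hXF o u (Finset.ne_of_mem_erase hu)
  rw [Finset.sum_congr rfl hcu, hcv, Finset.sum_comm,
    Finset.sum_congr rfl (fun y hy => (hX y hy).2), hFdef, Finset.sum_filter] at h'
  linarith

end

end Pool.Agent.Helper78.DC
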