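import Pool.Agent.Helper78.DC.Reg

/-! Gluing copies of a graph of maximum degree at most four and large girth to a four-regular graph
of large girth (problem MP_8e7d5e_co). -/

set_option autoImplicit false

namespace Pool.Agent.Helper78.DC

open Classical

noncomputable section

variable {V : Type} [Fintype V]

/-- free places at the vertices -/
abbrev Sl (G : SimpleGraph V) : Type := Σ v : V, Fin (4 - (nb G v).card)

variable (G : SimpleGraph V) {Γ : Type} [Group Γ]

/-- copies of `G`, joined by edges at the free places -/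
def cov (π : Sl G → Γ) (hπ : ∀ e, π e * π e = 1) : SimpleGraph (V × Γ) where
  Adj a b := a ≠ b ∧ ((a.2 = b.2 ∧ G.Adj a.1 b.1) ∨
    (a.1 = b.1 ∧ ∃ e : Sl G, e.1 = a.1 ∧ b.2 = a.2 * π e))
  symm := ⟨fun a b h => by
    refine ⟨h.1.symm, ?_⟩
    rcases h.2 with h | ⟨h, e, he, h'⟩
    · exact Or.inl ⟨h.1.symm, h.2.symm⟩
    · exact Or.inr ⟨h.symm, e, he.trans h, by rw [h', mul_assoc, hπ, mul_one]⟩⟩
  loopless := ⟨fun a h => h.1 rfl⟩

variable {G} {π : Sl G → Γ} {hπ : ∀ e, π e * π e = 1}

/-- the letter of a step -/
def lt (π : Sl G → Γ) (a b : V × Γ) : List (Sl G) :=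
  if h : ∃ e : Sl G, a.1 = b.1 ∧ e.1 = a.1 ∧ b.2 = a.2 * π e then [h.choose] else []

theorem step_cases {a b : V × Γ} (h : (cov G π hπ).Adj a b) :
    (lt π a b = [] ∧ a.2 = b.2 ∧ G.Adj a.1 b.1) ∨
      ∃ e : Sl G, lt π a b = [e] ∧ e.1 = a.1 ∧ b = (a.1, a.2 * π e) := by
  rcases h.2 with h1 | ⟨h1, e, he, h2⟩
  · left
    refine ⟨?_, h1⟩
    unfold lt
    rw [dif_neg]
    rintro ⟨e, h3, -⟩
    exact h1.2.ne h3
  · right
    have hex : ∃ e : Sl G, a.1 = b.1 ∧ e.1 = a.1 ∧ b.2 = a.2 * π e := ⟨e, h1, he, h2⟩
    refine ⟨hex.choose, ?_, hex.choose_spec.2.1, ?_⟩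
    · unfold lt
      rw [dif_pos hex]
    · exact Prod.ext h1.symm hex.choose_spec.2.2

/-- the letters of a walk -/
def word : ∀ {a b : V × Γ}, (cov G π hπ).Walk a b → List (Sl G)
  | _, _, .nil => []
  | a, _, .cons (v := b) _ p => lt π a b ++ word p

theorem word_cons {a b c : V × Γ} (h : (cov G π hπ).Adj a b) (p : (cov G π hπ).Walk b c) :
    word (SimpleGraph.Walk.cons h p) = lt π a b ++ word p := rfl

theorem word_prod {a b : V × Γ} (p : (cov G π hπ).Walk a b) :
    b.2 = a.2 * ((word p).map π).prod := by
  induction p with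
  | nil => simp [word]
  | cons h p ih =>
    rw [word_cons, ih]
    rcases step_cases h with ⟨h1, h2, -⟩ | ⟨e, h1, -, h2⟩
    · rw [h1, h2]; simp
    · have h2' := congrArg Prod.snd h2
      simp only at h2'
      rw [h1, h2']; simp [mul_assoc]

theorem word_len {a b : V × Γ} (p : (cov G π hπ).Walk a b) : (word p).length ≤ p.length := by
  induction p with
  | nil => simp [word]
  | cons h p ih =>
    rw [word_cons, List.length_append, SimpleGraph.Walk.length_cons]
    rcases step_cases h with ⟨h1, -⟩ | ⟨e, h1, -⟩
    · rw [h1]; simp; omega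
    · rw [h1]; simp; omega

theorem head_mem {a b : V × Γ} (p : (cov G π hπ).Walk a b) {e : Sl G}
    (he : e ∈ (word p).head?) : (e.1, a.2) ∈ p.support ∧ (e.1, a.2 * π e) ∈ p.support := by
  induction p with
  | nil => simp [word] at he
  | cons h p ih =>
    rw [word_cons] at he
    rcases step_cases h with ⟨h1, h2, -⟩ | ⟨e', h1, h3, h2⟩
    · rw [h1, List.nil_append] at he
      have := ih he
      rw [← h2] at this
      rw [SimpleGraph.Walk.support_cons]
      exact ⟨List.mem_cons_of_mem _ this.1, List.mem_cons_of_mem _ this.2⟩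
    · rw [h1] at he
      simp only [List.cons_append, List.nil_append, List.head?_cons, Option.mem_def,
        Option.some.injEq] at he
      subst he
      rw [SimpleGraph.Walk.support_cons, h3]
      refine ⟨List.mem_cons_self, List.mem_cons_of_mem _ ?_⟩
      rw [← h2]
      exact p.start_mem_support

theorem word_chain {a b : V × Γ} (p : (cov G π hπ).Walk a b) (hp : p.IsPath) :
    (word p).IsChain (· ≠ ·) := by
  induction p with
  | nil => exact List.IsChain.nil
  | cons h p ih =>
    rw [SimpleGraph.Walk.cons_isPath_iff] at hp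
    rw [word_cons]
    rcases step_cases h with ⟨h1, -⟩ | ⟨e, h1, h3, h2⟩
    · rw [h1, List.nil_append]; exact ih hp.1
    · rw [h1, List.cons_append, List.nil_append, List.isChain_cons]
      refine ⟨?_, ih hp.1⟩
      rintro f hf rfl
      apply hp.2
      have := (head_mem p hf).2
      have h2' := congrArg Prod.snd h2
      simp only at h2'
      rw [h2', mul_assoc, hπ, mul_one, h3] at this
      exact this

theorem head_second {a b : V × Γ} (p : (cov G π hπ).Walk a b) (hp : p.IsPath) {e : Sl G}
    (he : e ∈ (word p).head?) (hea : e.1 = a.1) :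
    1 ≤ p.length ∧ p.getVert 1 = (a.1, a.2 * π e) := by
  cases p with
  | nil => simp [word] at he
  | cons h p =>
    rw [SimpleGraph.Walk.cons_isPath_iff] at hp
    rw [word_cons] at he
    refine ⟨by rw [SimpleGraph.Walk.length_cons]; omega, ?_⟩
    rcases step_cases h with ⟨h1, h2, -⟩ | ⟨e', h1, h3, h2⟩
    · exfalso
      rw [h1, List.nil_append] at he
      have := (head_mem p he).1
      rw [← h2, hea] at this
      exact hp.2 this
    · rw [h1] at he
      simp only [List.cons_append, List.nil_append, List.head?_cons, Option.mem_def,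
        Option.some.injEq] at he
      subst he
      rw [SimpleGraph.Walk.getVert_cons_succ, SimpleGraph.Walk.getVert_zero, h2]

theorem proj {a b : V × Γ} (p : (cov G π hπ).Walk a b) (hw : word p = []) :
    ∃ q : G.Walk a.1 b.1, q.length = p.length ∧ q.support = p.support.map Prod.fst ∧
      ∀ x ∈ p.support, x.2 = a.2 := by
  induction p with
  | nil => exact ⟨SimpleGraph.Walk.nil, by simp, by simp, by simp⟩
  | cons h p ih =>
    rw [word_cons, List.append_eq_nil_iff] at hw
    obtain ⟨q, h1, h2, h3⟩ := ih hw.2
    rcases step_cases h with ⟨-, h5, h6⟩ | ⟨e, h4, -⟩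
    · refine ⟨SimpleGraph.Walk.cons h6 q, ?_, ?_, ?_⟩
      · rw [SimpleGraph.Walk.length_cons, SimpleGraph.Walk.length_cons, h1]
      · rw [SimpleGraph.Walk.support_cons, SimpleGraph.Walk.support_cons, h2, List.map_cons]
      · intro x hx
        rw [SimpleGraph.Walk.support_cons, List.mem_cons] at hx
        rcases hx with rfl | hx
        · rfl
        · rw [h3 x hx, h5]
    · rw [hw.1] at h4
      exact absurd h4 (by simp)

theorem girth_cov {g : ℕ} (hg : Girth G g)
    (hw : ∀ l : List (Sl G), l ≠ [] → l.length ≤ g → l.IsChain (· ≠ ·) → (l.map π).prod ≠ 1) :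
    Girth (cov G π hπ) g := by
  intro a c hc
  by_contra hlt
  push Not at hlt
  have h3 := hc.three_le_length
  cases c with
  | nil => simp at h3
  | @cons _ b _ h p =>
    have hp : p.IsPath := (SimpleGraph.Walk.cons_isCycle_iff p h).1 hc |>.1
    rw [SimpleGraph.Walk.length_cons] at h3 hlt
    have hprod : (((lt π a b ++ word p)).map π).prod = 1 := by
      have := word_prod (SimpleGraph.Walk.cons h p)
      rw [word_cons] at this
      exact mul_left_cancel (a := a.2) (by rw [mul_one]; exact this.symm)
    have hlen : (lt π a b ++ word p).length ≤ g := by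
      have := word_len (SimpleGraph.Walk.cons h p)
      rw [word_cons, SimpleGraph.Walk.length_cons] at this
      omega
    by_cases hnil : lt π a b ++ word p = []
    · obtain ⟨q, h1, h2, h4⟩ := proj p (List.append_eq_nil_iff.1 hnil).2
      rcases step_cases h with ⟨-, h5, h6⟩ | ⟨e, h4, -⟩
      · have hq : q.IsPath := by
          rw [SimpleGraph.Walk.isPath_def, h2, List.nodup_map_iff_inj_on
            ((SimpleGraph.Walk.isPath_def _).1 hp)]
          intro x hx y hy hxy
          exact Prod.ext hxy ((h4 x hx).trans (h4 y hy).symm)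
        have hcyc : (SimpleGraph.Walk.cons h6 q).IsCycle := by
          rw [SimpleGraph.Walk.isCycle_iff_isPath_tail_and_le_length]
          refine ⟨?_, ?_⟩
          · simpa using hq
          · rw [SimpleGraph.Walk.length_cons, h1]; omega
        have := hg _ _ hcyc
        rw [SimpleGraph.Walk.length_cons, h1] at this
        omega
      · rw [(List.append_eq_nil_iff.1 hnil).1] at h4
        exact absurd h4 (by simp)
    · refine hw _ hnil hlen ?_ hprod
      rcases step_cases h with ⟨h1, -⟩ | ⟨e, h1, h5, h2⟩
      · rw [h1, List.nil_append]; exact word_chain p hp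
      · rw [h1, List.cons_append, List.nil_append, List.isChain_cons]
        refine ⟨?_, word_chain p hp⟩
        rintro f hf rfl
        have hb1 : e.1 = b.1 := by rw [h2]; exact h5
        obtain ⟨k1, k2⟩ := head_second p hp hf hb1
        have k3 : p.getVert 1 = p.getVert p.length := by
          rw [k2, p.getVert_length, h2]
          simp only [mul_assoc, hπ, mul_one]
        have := hp.getVert_injOn (show 1 ∈ {i | i ≤ p.length} by simp only [Set.mem_setOf_eq]; omega)
          (show p.length ∈ {i | i ≤ p.length} by simp) k3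
        omega

end

end Pool.Agent.Helper78.DC
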