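import Pool.Agent.Helper93.Plz.Minor
import Pool.Agent.Helper60.Plz.Final

/-! Vertex sets without cycles are planar and sparse (problem MP_8e7d5e_co). -/

set_option autoImplicit false

namespace Pool.Agent.Helper78.DC

open Classical Pool.Agent.Helper60.Plz Pool.Agent.Helper93.Plz

noncomputable section

variable {V : Type} [Fintype V] {G : SimpleGraph V}

/-- the set `S` contains no cycle -/
def Acy (G : SimpleGraph V) (S : Finset V) : Prop :=
  ∀ (u : V) (c : G.Walk u u), c.IsCycle → ∃ x ∈ c.support, x ∉ S

theorem Acy.mono {S T : Finset V} (h : Acy G S) (hT : T ⊆ S) : Acy G T := by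
  intro u c hc
  obtain ⟨x, hx, hxS⟩ := h u c hc
  exact ⟨x, hx, fun h' => hxS (hT h')⟩

theorem exists_leaf {S : Finset V} (hS : S.Nonempty) (hac : Acy G S) :
    ∃ v ∈ S, ∃ a, ∀ y ∈ S, G.Adj v y → y = a := by
  by_contra hcon
  push Not at hcon
  have key : ∀ n : ℕ, ∃ (u v : V) (p : G.Walk u v), p.IsPath ∧ (∀ x ∈ p.support, x ∈ S) ∧
      p.length = n := by
    intro n
    induction n with
    | zero =>
      obtain ⟨v, hv⟩ := hS
      exact ⟨v, v, SimpleGraph.Walk.nil, by simp, by simpa using hv, rfl⟩
    | succ n ih =>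
      obtain ⟨u, v, p, hp, hs, hl⟩ := ih
      obtain ⟨y, hy, hyu, hya⟩ := hcon u (hs u p.start_mem_support) (p.getVert 1)
      by_cases hyp : y ∈ p.support
      · exfalso
        have hq : (p.takeUntil y hyp).IsPath := hp.takeUntil hyp
        have hc : (SimpleGraph.Walk.cons hyu.symm (p.takeUntil y hyp)).IsCycle := by
          rw [SimpleGraph.Walk.cons_isCycle_iff]
          refine ⟨hq, ?_⟩
          intro hmem
          rw [Sym2.eq_swap] at hmem
          have h1 := hq.eq_snd_of_mem_edges hmem
          apply hya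
          rw [h1]
          unfold SimpleGraph.Walk.snd
          apply SimpleGraph.Walk.getVert_takeUntil
          by_contra hlt
          have hl0 : (p.takeUntil y hyp).length = 0 := by omega
          have := SimpleGraph.Walk.eq_of_length_eq_zero hl0
          exact hyu.ne this
        obtain ⟨x, hx, hxS⟩ := hac _ _ hc
        rw [SimpleGraph.Walk.support_cons, List.mem_cons] at hx
        rcases hx with rfl | hx
        · exact hxS hy
        · exact hxS (hs x (SimpleGraph.Walk.support_takeUntil_subset_support p hyp hx))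
      · refine ⟨y, v, SimpleGraph.Walk.cons hyu.symm p, ?_, ?_, ?_⟩
        · rw [SimpleGraph.Walk.cons_isPath_iff]; exact ⟨hp, hyp⟩
        · intro x hx
          rw [SimpleGraph.Walk.support_cons, List.mem_cons] at hx
          rcases hx with rfl | hx
          · exact hy
          · exact hs x hx
        · rw [SimpleGraph.Walk.length_cons, hl]
  obtain ⟨u, v, p, hp, -, hl⟩ := key (Fintype.card V)
  have := hp.length_lt
  omega

theorem plS_of_acy : ∀ (n : ℕ) (S : Finset V), S.card = n → Acy G S → PlS G (S : Set V) := by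
  intro n
  induction n with
  | zero =>
    intro S hn _
    rw [Finset.card_eq_zero.1 hn, Finset.coe_empty]
    exact plS_empty G
  | succ n ih =>
    intro S hn hac
    obtain ⟨v, hv, a, ha⟩ := exists_leaf (Finset.card_pos.1 (by omega)) hac
    have h1 := ih (S.erase v) (by rw [Finset.card_erase_of_mem hv]; omega)
      (hac.mono (Finset.erase_subset _ _))
    have h2 : (S : Set V) = insert v ((S.erase v : Finset V) : Set V) := by
      rw [← Finset.coe_insert, Finset.insert_erase hv]
    rw [h2]
    refine plS_insert (a := a) (b := a) (H' := G) ?_ (fun _ _ _ _ h => h)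
      (fun _ _ _ _ h => absurd rfl h) h1
    intro y hy hvy
    exact Or.inl (ha y (Finset.mem_of_mem_erase hy) hvy)

theorem planarization_le_of {T : Finset V}
    (h : ∀ (u : V) (c : G.Walk u u), c.IsCycle → ∃ x ∈ c.support, x ∈ T) :
    planarization G ≤ T.card := by
  apply Nat.sInf_le
  refine ⟨T, rfl, ?_⟩
  have h1 : PlS G ((Tᶜ : Finset V) : Set V) := by
    apply plS_of_acy _ _ rfl
    intro u c hc
    obtain ⟨x, hx, hxT⟩ := h u c hc
    exact ⟨x, hx, by simpa using hxT⟩
  have h2 : ((Tᶜ : Finset V) : Set V) = {v | v ∉ T} := by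
    ext x; simp
  rw [h2] at h1
  exact isPlanar_of_plS h1

theorem acyclic_of {T : Finset V}
    (h : ∀ (u : V) (c : G.Walk u u), c.IsCycle → ∃ x ∈ c.support, x ∈ T) :
    (G.induce {v | v ∉ T}).IsAcyclic := by
  intro u c hc
  have hinj : Function.Injective (SimpleGraph.Embedding.induce (G := G) {v | v ∉ T}).toHom :=
    (SimpleGraph.Embedding.induce (G := G) {v | v ∉ T}).injective
  obtain ⟨x, hx, hxT⟩ := h _ _ (hc.map hinj)
  rw [SimpleGraph.Walk.support_map, List.mem_map] at hx
  obtain ⟨y, -, rfl⟩ := hx
  exact y.2 hxT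

theorem eIn_insert {P : Finset V} {v a : V} (hv : v ∉ P) (ha : ∀ y ∈ P, G.Adj v y → y = a) :
    eIn G (insert v P) ≤ eIn G P + 2 := by
  unfold eIn
  have hsub : ((insert v P ×ˢ insert v P).filter fun p => G.Adj p.1 p.2) ⊆
      ((P ×ˢ P).filter fun p => G.Adj p.1 p.2) ∪ {(v, a), (a, v)} := by
    rintro ⟨x, y⟩ h
    rw [Finset.mem_filter, Finset.mem_product, Finset.mem_insert, Finset.mem_insert] at h
    obtain ⟨⟨hx, hy⟩, hxy⟩ := h
    simp only at hx hy hxy
    rw [Finset.mem_union, Finset.mem_filter, Finset.mem_product, Finset.mem_insert,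
      Finset.mem_singleton]
    rcases hx with rfl | hx
    · rcases hy with rfl | hy
      · exact absurd rfl hxy.ne
      · right; left; rw [ha y hy hxy]
    · rcases hy with rfl | hy
      · right; right; rw [ha x hx hxy.symm]
      · left; exact ⟨⟨hx, hy⟩, hxy⟩
  refine (Finset.card_le_card hsub).trans ((Finset.card_union_le _ _).trans ?_)
  have := Finset.card_le_two (a := (v, a)) (b := (a, v))
  omega

theorem sparse_of_acy : ∀ (n : ℕ) (P : Finset V), P.card = n + 1 → Acy G P →
    eIn G P + 2 ≤ 2 * P.card := by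
  intro n
  induction n with
  | zero =>
    intro P hP _
    obtain ⟨v, rfl⟩ := Finset.card_eq_one.1 hP
    have : eIn G {v} = 0 := by
      unfold eIn
      rw [Finset.card_eq_zero]
      rw [Finset.filter_eq_empty_iff]
      rintro ⟨x, y⟩ h
      rw [Finset.mem_product, Finset.mem_singleton, Finset.mem_singleton] at h
      simp only at h
      rw [h.1, h.2]
      exact fun h => h.ne rfl
    rw [this]; simp
  | succ n ih =>
    intro P hP hac
    obtain ⟨v, hv, a, ha⟩ := exists_leaf (Finset.card_pos.1 (by omega)) hac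
    have hc : (P.erase v).card = n + 1 := by rw [Finset.card_erase_of_mem hv]; omega
    have h1 := ih (P.erase v) hc (hac.mono (Finset.erase_subset _ _))
    have h2 := eIn_insert (G := G) (Finset.notMem_erase v P)
      (fun y hy h => ha y (Finset.mem_of_mem_erase hy) h)
    rw [Finset.insert_erase hv] at h2
    omega

end

end Pool.Agent.Helper78.DC
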