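import Mathlib

/-! The finite local inequality (problem MP_8e7d5e_co, large girth). -/

set_option autoImplicit false

namespace Pool.Agent.Helper78.DC

/-- the cost of an out-degree (natural number version) -/
def wN : ℕ → ℕ
  | 0 => 0
  | 1 => 2
  | 2 => 1
  | 3 => 0
  | _ => 2

/-- one if the two booleans agree -/
def eqN (a b : Bool) : ℕ := if a == b then 1 else 0

def bN (a : Bool) : ℕ := if a then 1 else 0

/-- the value of the flip set `F` plus offset: `w(out) + ∑_{i ∈ F} e_i + 2 (4 - |F|)` -/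
def valF (a0 a1 a2 a3 : Bool) (e0 e1 e2 e3 : ℕ) (f0 f1 f2 f3 : Bool) : ℕ :=
  wN (eqN a0 f0 + eqN a1 f1 + eqN a2 f2 + eqN a3 f3) +
    (if f0 then e0 else 2) + (if f1 then e1 else 2) + (if f2 then e2 else 2) +
    (if f3 then e3 else 2)

def allB (p : Bool → Bool) : Bool := p true && p false

def optB (a0 a1 a2 a3 : Bool) (e0 e1 e2 e3 : ℕ) : Bool :=
  allB fun f0 => allB fun f1 => allB fun f2 => allB fun f3 =>
    Nat.ble (valF a0 a1 a2 a3 e0 e1 e2 e3 false false false false)
      (valF a0 a1 a2 a3 e0 e1 e2 e3 f0 f1 f2 f3)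

def min2 (p : Bool → ℕ) : ℕ := min (p true) (p false)

/-- `m0 = min over F containing 0` of `valF` with `e0` replaced by `0` -/
def m0 (a0 a1 a2 a3 : Bool) (e1 e2 e3 : ℕ) : ℕ :=
  min2 fun f1 => min2 fun f2 => min2 fun f3 => valF a0 a1 a2 a3 0 e1 e2 e3 true f1 f2 f3

/-- incoming label -/
def hin (a : Bool) (e : ℕ) : ℕ :=
  if a then (if e == 0 then 1 else 0) else (if e == 1 then 1 else 0)

/-- outgoing label: `m = D' + w(k) + 6` -/
def hout (a : Bool) (m wk : ℕ) : ℕ :=
  if a then (if m == wk + 5 then 1 else 0) else (if m == wk + 4 then 1 else 0)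

def chk (a0 a1 a2 a3 : Bool) (e0 e1 e2 e3 : ℕ) : Bool :=
  !(optB a0 a1 a2 a3 e0 e1 e2 e3) ||
    Nat.ble (2 * wN (bN (!a0) + bN (!a1) + bN (!a2) + bN (!a3)) + hin a0 e0 + hin a1 e1 +
      hin a2 e2 + hin a3 e3)
      (hout a0 (m0 a0 a1 a2 a3 e1 e2 e3) (wN (bN (!a0) + bN (!a1) + bN (!a2) + bN (!a3))) +
      hout a1 (m0 a1 a0 a2 a3 e0 e2 e3) (wN (bN (!a0) + bN (!a1) + bN (!a2) + bN (!a3))) +
      hout a2 (m0 a2 a1 a0 a3 e1 e0 e3) (wN (bN (!a0) + bN (!a1) + bN (!a2) + bN (!a3))) +
      hout a3 (m0 a3 a1 a2 a0 e1 e2 e0) (wN (bN (!a0) + bN (!a1) + bN (!a2) + bN (!a3))))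

def all5 (p : ℕ → Bool) : Bool := p 0 && p 1 && p 2 && p 3 && p 4

theorem chk_all : (allB fun a0 => allB fun a1 => allB fun a2 => allB fun a3 =>
    all5 fun e0 => all5 fun e1 => all5 fun e2 => all5 fun e3 =>
      chk a0 a1 a2 a3 e0 e1 e2 e3) = true := by
  decide +kernel

/-- the cost of an out-degree -/
def w (n : ℕ) : ℤ := wN n

theorem w_nonneg (n : ℕ) : 0 ≤ w n := by unfold w; positivity

theorem w_le (n : ℕ) : w n ≤ 2 := by
  unfold w wN
  split <;> norm_num

/-- the number of edges at a vertex with neighbours `N` that are oriented outwards after the edges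
to the vertices `y` with `φ y` are flipped; `a y` says that the edge to `y` is oriented inwards -/
def oc {V : Type} (N : Finset V) (a φ : V → Bool) : ℕ := (N.filter fun y => a y = φ y).card

/-- the label -/
def hl (a : Bool) (d : ℤ) : ℤ := if a then (if d = -2 then -1 else 0) else (if d = -1 then -1 else 0)

theorem hl_le (a : Bool) (d : ℤ) : hl a d ≤ 0 := by
  unfold hl; split_ifs <;> norm_num

theorem le_hl (a : Bool) (d : ℤ) : -1 ≤ hl a d := by
  unfold hl; split_ifs <;> norm_num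

theorem allB_iff (p : Bool → Bool) : allB p = true ↔ ∀ b, p b = true := by
  unfold allB
  constructor
  · intro h b
    rw [Bool.and_eq_true] at h
    cases b
    · exact h.2
    · exact h.1
  · intro h
    rw [h true, h false]; rfl

theorem all5_iff (p : ℕ → Bool) : all5 p = true ↔ ∀ n < 5, p n = true := by
  unfold all5
  constructor
  · intro h n hn
    simp only [Bool.and_eq_true] at h
    interval_cases n
    · exact h.1.1.1.1
    · exact h.1.1.1.2
    · exact h.1.1.2
    · exact h.1.2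
    · exact h.2
  · intro h
    rw [h 0 (by norm_num), h 1 (by norm_num), h 2 (by norm_num), h 3 (by norm_num), h 4 (by norm_num)]
    rfl

theorem chk_true (a0 a1 a2 a3 : Bool) (e0 e1 e2 e3 : ℕ) (h0 : e0 < 5) (h1 : e1 < 5) (h2 : e2 < 5)
    (h3 : e3 < 5) : chk a0 a1 a2 a3 e0 e1 e2 e3 = true := by
  have h := chk_all
  rw [allB_iff] at h
  have h := h a0
  rw [allB_iff] at h
  have h := h a1
  rw [allB_iff] at h
  have h := h a2
  rw [allB_iff] at h
  have h := h a3
  rw [all5_iff] at h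
  have h := h e0 h0
  rw [all5_iff] at h
  have h := h e1 h1
  rw [all5_iff] at h
  have h := h e2 h2
  rw [all5_iff] at h
  exact h e3 h3

end Pool.Agent.Helper78.DC
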