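import Pool.Agent.Helper78.DC.Local

/-! The local inequality at a vertex of degree four (problem MP_8e7d5e_co, large girth). -/

set_option autoImplicit false

namespace Pool.Agent.Helper78.DC

theorem card_four {V : Type} [DecidableEq V] (N : Finset V) (h : N.card = 4) :
    ∃ y0 y1 y2 y3 : V, y0 ≠ y1 ∧ y0 ≠ y2 ∧ y0 ≠ y3 ∧ y1 ≠ y2 ∧ y1 ≠ y3 ∧ y2 ≠ y3 ∧
      N = {y0, y1, y2, y3} := by
  obtain ⟨y0, t, hy, rfl, ht⟩ := Finset.card_eq_succ.1 h
  obtain ⟨y1, y2, y3, h12, h13, h23, rfl⟩ := Finset.card_eq_three.1 ht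
  simp only [Finset.mem_insert, Finset.mem_singleton, not_or] at hy
  exact ⟨y0, y1, y2, y3, hy.1, hy.2.1, hy.2.2, h12, h13, h23, rfl⟩

theorem oc_eq {V : Type} [DecidableEq V] {y0 y1 y2 y3 : V} (h01 : y0 ≠ y1) (h02 : y0 ≠ y2)
    (h03 : y0 ≠ y3) (h12 : y1 ≠ y2) (h13 : y1 ≠ y3) (h23 : y2 ≠ y3) (a φ : V → Bool) :
    oc {y0, y1, y2, y3} a φ = eqN (a y0) (φ y0) + eqN (a y1) (φ y1) + eqN (a y2) (φ y2) +
      eqN (a y3) (φ y3) := by
  unfold oc eqN
  rw [Finset.card_filter, Finset.sum_insert (by simp [h01, h02, h03]),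
    Finset.sum_insert (by simp [h12, h13]), Finset.sum_insert (by simp [h23]),
    Finset.sum_singleton]
  simp only [beq_iff_eq]
  ring

theorem eqN_false (a : Bool) : eqN a false = bN (!a) := by cases a <;> rfl

theorem min2_spec (p : Bool → ℕ) : (∀ b, min2 p ≤ p b) ∧ ∃ b, min2 p = p b := by
  unfold min2
  constructor
  · intro b
    cases b
    · exact min_le_right _ _
    · exact min_le_left _ _
  · rcases min_choice (p true) (p false) with h | h
    · exact ⟨true, h⟩
    · exact ⟨false, h⟩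

theorem m0_spec (a0 a1 a2 a3 : Bool) (e1 e2 e3 : ℕ) :
    (∀ f1 f2 f3, m0 a0 a1 a2 a3 e1 e2 e3 ≤ valF a0 a1 a2 a3 0 e1 e2 e3 true f1 f2 f3) ∧
      ∃ f1 f2 f3, m0 a0 a1 a2 a3 e1 e2 e3 = valF a0 a1 a2 a3 0 e1 e2 e3 true f1 f2 f3 := by
  unfold m0
  constructor
  · intro f1 f2 f3
    refine ((min2_spec _).1 f1).trans (((min2_spec _).1 f2).trans ((min2_spec _).1 f3))
  · obtain ⟨f1, h1⟩ := (min2_spec fun f1 => min2 fun f2 => min2 fun f3 =>
      valF a0 a1 a2 a3 0 e1 e2 e3 true f1 f2 f3).2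
    obtain ⟨f2, h2⟩ := (min2_spec fun f2 => min2 fun f3 =>
      valF a0 a1 a2 a3 0 e1 e2 e3 true f1 f2 f3).2
    obtain ⟨f3, h3⟩ := (min2_spec fun f3 => valF a0 a1 a2 a3 0 e1 e2 e3 true f1 f2 f3).2
    exact ⟨f1, f2, f3, by rw [h1, h2, h3]⟩

/-- the value of a flip pattern containing `y` -/
def vl {V : Type} [DecidableEq V] (N : Finset V) (a : V → Bool) (d : V → ℤ) (y : V)
    (φ : V → Bool) : ℤ :=
  w (oc N a φ) - w (oc N a fun _ => false) + ∑ z ∈ N.erase y, if φ z then d z else 0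

/-- the four-term version, for one edge -/
theorem hout_eq {V : Type} [DecidableEq V] {y0 y1 y2 y3 : V} (h01 : y0 ≠ y1) (h02 : y0 ≠ y2)
    (h03 : y0 ≠ y3) (h12 : y1 ≠ y2) (h13 : y1 ≠ y3) (h23 : y2 ≠ y3) (a : V → Bool) (d : V → ℤ)
    (e1 e2 e3 : ℕ) (he1 : (e1 : ℤ) = d y1 + 2) (he2 : (e2 : ℤ) = d y2 + 2)
    (he3 : (e3 : ℤ) = d y3 + 2) (D : ℤ)
    (hD1 : ∃ φ : V → Bool, φ y0 = true ∧ D = vl {y0, y1, y2, y3} a d y0 φ)
    (hD2 : ∀ φ : V → Bool, φ y0 = true → D ≤ vl {y0, y1, y2, y3} a d y0 φ) (k : ℕ)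
    (hk : k = wN (oc {y0, y1, y2, y3} a fun _ => false)) :
    (hout (a y0) (m0 (a y0) (a y1) (a y2) (a y3) e1 e2 e3) k : ℤ) = - hl (!(a y0)) D := by
  have key : ∀ φ : V → Bool, φ y0 = true →
      (valF (a y0) (a y1) (a y2) (a y3) 0 e1 e2 e3 true (φ y1) (φ y2) (φ y3) : ℤ) =
        vl {y0, y1, y2, y3} a d y0 φ + k + 6 := by
    intro φ hφ
    have hs : ∑ z ∈ ({y0, y1, y2, y3} : Finset V).erase y0, (if φ z then d z else 0) =
        (if φ y1 then d y1 else 0) + (if φ y2 then d y2 else 0) + (if φ y3 then d y3 else 0) := by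
      rw [Finset.erase_insert (by simp [h01, h02, h03]), Finset.sum_insert (by simp [h12, h13]),
        Finset.sum_insert (by simp [h23]), Finset.sum_singleton]
      ring
    unfold vl valF w
    rw [hs, ← hk, oc_eq h01 h02 h03 h12 h13 h23, hφ]
    push_cast
    have t1 : ((if φ y1 then e1 else 2 : ℕ) : ℤ) = (if φ y1 then d y1 else 0) + 2 := by
      split_ifs
      · exact he1
      · norm_num
    have t2 : ((if φ y2 then e2 else 2 : ℕ) : ℤ) = (if φ y2 then d y2 else 0) + 2 := by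
      split_ifs
      · exact he2
      · norm_num
    have t3 : ((if φ y3 then e3 else 2 : ℕ) : ℤ) = (if φ y3 then d y3 else 0) + 2 := by
      split_ifs
      · exact he3
      · norm_num
    push_cast at t1 t2 t3
    rw [t1, t2, t3]
    simp only [if_true]
    ring
  obtain ⟨hm1, f1, f2, f3, hm2⟩ := m0_spec (a y0) (a y1) (a y2) (a y3) e1 e2 e3
  have hmD : ((m0 (a y0) (a y1) (a y2) (a y3) e1 e2 e3 : ℕ) : ℤ) = D + k + 6 := by
    apply le_antisymm
    · obtain ⟨φ, hφ, hD⟩ := hD1
      have := hm1 (φ y1) (φ y2) (φ y3)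
      have h2 := key φ hφ
      rw [hD, ← h2]
      exact_mod_cast this
    · set φ : V → Bool := fun y => if y = y0 then true else if y = y1 then f1 else
        if y = y2 then f2 else f3 with hφ
      have p0 : φ y0 = true := by simp [hφ]
      have p1 : φ y1 = f1 := by simp [hφ, h01.symm]
      have p2 : φ y2 = f2 := by simp [hφ, h02.symm, h12.symm]
      have p3 : φ y3 = f3 := by simp [hφ, h03.symm, h13.symm, h23.symm]
      have h2 := key φ p0
      have h3 := hD2 φ p0
      rw [p1, p2, p3, ← hm2] at h2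
      rw [h2]
      linarith
  generalize m0 (a y0) (a y1) (a y2) (a y3) e1 e2 e3 = m at hmD ⊢
  unfold hout hl
  cases a y0
  · simp only [Bool.not_false, if_true, Bool.false_eq_true, if_false, beq_iff_eq]
    split_ifs <;> first | rfl | (exfalso; omega)
  · simp only [Bool.not_true, if_true, Bool.false_eq_true, if_false, beq_iff_eq]
    split_ifs <;> first | rfl | (exfalso; omega)

theorem local_ineq {V : Type} [DecidableEq V] (N : Finset V) (hN : N.card = 4) (a : V → Bool)
    (d : V → ℤ) (hd : ∀ y ∈ N, -2 ≤ d y ∧ d y ≤ 2)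
    (hopt : ∀ φ : V → Bool, w (oc N a fun _ => false) ≤
      w (oc N a φ) + ∑ y ∈ N, if φ y then d y else 0)
    (D : V → ℤ) (hD1 : ∀ y ∈ N, ∃ φ : V → Bool, φ y = true ∧ D y = vl N a d y φ)
    (hD2 : ∀ y ∈ N, ∀ φ : V → Bool, φ y = true → D y ≤ vl N a d y φ) :
    2 * w (oc N a fun _ => false) ≤ ∑ y ∈ N, (hl (a y) (d y) - hl (!(a y)) (D y)) := by
  obtain ⟨y0, y1, y2, y3, h01, h02, h03, h12, h13, h23, rfl⟩ := card_four N hN
  have b0 := hd y0 (by simp)
  have b1 := hd y1 (by simp)
  have b2 := hd y2 (by simp)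
  have b3 := hd y3 (by simp)
  obtain ⟨e0, he0⟩ := Int.eq_ofNat_of_zero_le (show 0 ≤ d y0 + 2 by omega)
  obtain ⟨e1, he1⟩ := Int.eq_ofNat_of_zero_le (show 0 ≤ d y1 + 2 by omega)
  obtain ⟨e2, he2⟩ := Int.eq_ofNat_of_zero_le (show 0 ≤ d y2 + 2 by omega)
  obtain ⟨e3, he3⟩ := Int.eq_ofNat_of_zero_le (show 0 ≤ d y3 + 2 by omega)
  have hc := chk_true (a y0) (a y1) (a y2) (a y3) e0 e1 e2 e3 (by omega) (by omega) (by omega)
    (by omega)
  set k := wN (oc {y0, y1, y2, y3} a fun _ => false) with hk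
  have hk' : wN (bN (!(a y0)) + bN (!(a y1)) + bN (!(a y2)) + bN (!(a y3))) = k := by
    rw [hk, oc_eq h01 h02 h03 h12 h13 h23, eqN_false, eqN_false, eqN_false, eqN_false]
  unfold chk at hc
  rw [hk', Bool.or_eq_true] at hc
  rcases hc with hc | hc
  · -- not optimal
    exfalso
    rw [Bool.not_eq_true'] at hc
    have : optB (a y0) (a y1) (a y2) (a y3) e0 e1 e2 e3 = true := by
      unfold optB
      rw [allB_iff]; intro f0
      rw [allB_iff]; intro f1
      rw [allB_iff]; intro f2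
      rw [allB_iff]; intro f3
      apply Nat.ble_eq_true_of_le
      set φ : V → Bool := fun y => if y = y0 then f0 else if y = y1 then f1 else
        if y = y2 then f2 else f3 with hφ
      have p0 : φ y0 = f0 := by simp [hφ]
      have p1 : φ y1 = f1 := by simp [hφ, h01.symm]
      have p2 : φ y2 = f2 := by simp [hφ, h02.symm, h12.symm]
      have p3 : φ y3 = f3 := by simp [hφ, h03.symm, h13.symm, h23.symm]
      have h := hopt φ
      rw [Finset.sum_insert (by simp [h01, h02, h03]), Finset.sum_insert (by simp [h12, h13]),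
        Finset.sum_insert (by simp [h23]), Finset.sum_singleton] at h
      rw [p0, p1, p2, p3] at h
      unfold w at h
      rw [oc_eq h01 h02 h03 h12 h13 h23 a φ, oc_eq h01 h02 h03 h12 h13 h23 a, p0, p1, p2, p3] at h
      unfold valF
      zify
      have t0 : ((if f0 then e0 else 2 : ℕ) : ℤ) = (if f0 then d y0 else 0) + 2 := by
        split_ifs
        · exact he0.symm
        · norm_num
      have t1 : ((if f1 then e1 else 2 : ℕ) : ℤ) = (if f1 then d y1 else 0) + 2 := by
        split_ifs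
        · exact he1.symm
        · norm_num
      have t2 : ((if f2 then e2 else 2 : ℕ) : ℤ) = (if f2 then d y2 else 0) + 2 := by
        split_ifs
        · exact he2.symm
        · norm_num
      have t3 : ((if f3 then e3 else 2 : ℕ) : ℤ) = (if f3 then d y3 else 0) + 2 := by
        split_ifs
        · exact he3.symm
        · norm_num
      push_cast at t0 t1 t2 t3
      rw [t0, t1, t2, t3]
      simp only [Bool.false_eq_true, if_false, Nat.cast_ofNat]
      linarith
    rw [this] at hc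
    exact absurd hc (by simp)
  · have hc := Nat.le_of_ble_eq_true hc
    have q0 := hout_eq h01 h02 h03 h12 h13 h23 a d e1 e2 e3 he1.symm he2.symm he3.symm (D y0)
      (hD1 y0 (by simp)) (hD2 y0 (by simp)) k hk
    have r1 : ({y0, y1, y2, y3} : Finset V) = {y1, y0, y2, y3} := by
      ext z; simp only [Finset.mem_insert, Finset.mem_singleton]; tauto
    have r2 : ({y0, y1, y2, y3} : Finset V) = {y2, y1, y0, y3} := by
      ext z; simp only [Finset.mem_insert, Finset.mem_singleton]; tauto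
    have r3 : ({y0, y1, y2, y3} : Finset V) = {y3, y1, y2, y0} := by
      ext z; simp only [Finset.mem_insert, Finset.mem_singleton]; tauto
    have q1 := hout_eq h01.symm h12 h13 h02 h03 h23 a d e0 e2 e3 he0.symm he2.symm he3.symm (D y1)
      (by rw [← r1]; exact hD1 y1 (by simp)) (by rw [← r1]; exact hD2 y1 (by simp)) k
      (by rw [← r1])
    have q2 := hout_eq h12.symm h02.symm h23 h01.symm h13 h03 a d e1 e0 e3 he1.symm he0.symm
      he3.symm (D y2) (by rw [← r2]; exact hD1 y2 (by simp))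
      (by rw [← r2]; exact hD2 y2 (by simp)) k (by rw [← r2])
    have q3 := hout_eq h13.symm h23.symm h03.symm h12 h01.symm h02.symm a d e1 e2 e0 he1.symm
      he2.symm he0.symm (D y3) (by rw [← r3]; exact hD1 y3 (by simp))
      (by rw [← r3]; exact hD2 y3 (by simp)) k (by rw [← r3])
    have hin_eq : ∀ (b : Bool) (e : ℕ) (x : ℤ), x + 2 = e → (hin b e : ℤ) = - hl b x := by
      intro b e x hx
      unfold hin hl
      cases b
      · simp only [Bool.false_eq_true, if_false, beq_iff_eq]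
        split_ifs <;> first | rfl | (exfalso; omega)
      · simp only [if_true, beq_iff_eq]
        split_ifs <;> first | rfl | (exfalso; omega)
    have s0 := hin_eq (a y0) e0 (d y0) he0
    have s1 := hin_eq (a y1) e1 (d y1) he1
    have s2 := hin_eq (a y2) e2 (d y2) he2
    have s3 := hin_eq (a y3) e3 (d y3) he3
    rw [Finset.sum_insert (by simp [h01, h02, h03]), Finset.sum_insert (by simp [h12, h13]),
      Finset.sum_insert (by simp [h23]), Finset.sum_singleton]
    have hw : w (oc {y0, y1, y2, y3} a fun _ => false) = (k : ℤ) := by rw [hk]; rfl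
    rw [hw]
    zify at hc
    rw [q0, q1, q2, q3, s0, s1, s2, s3] at hc
    linarith

end Pool.Agent.Helper78.DC
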