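import Pool.Agent.Helper78.DC.Max
import Pool.Agent.Helper78.DC.Leaf
import Pool.Agent.Helper10.Plz.A
import Pool.Agent.Helper10.Plz.B
import Pool.Agent.Helper5.Plz.C

/-! The lower bound for graphs of large girth (problem MP_8e7d5e_co). -/

set_option autoImplicit false

namespace Pool.Agent.Helper78.DC

open Classical Pool.Agent.Helper60.Plz Pool.Agent.Helper93.Plz

noncomputable section

variable {V : Type} [Fintype V] {G : SimpleGraph V}

theorem goalC : GoalC :=
  Pool.Agent.Helper5.Plz.packetC Pool.Agent.Helper10.Plz.packetA Pool.Agent.Helper10.Plz.packetB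

theorem acy_of_girth {L : ℕ} (hg : Girth G L) {P : Finset V} (hP : P.card < L) : Acy G P := by
  intro u c hc
  by_contra hcon
  push Not at hcon
  have h1 := hg u c hc
  have h2 := card_support c hc
  have h3 : c.support.toFinset.card ≤ P.card := by
    apply Finset.card_le_card
    intro x hx
    exact hcon x (List.mem_toFinset.1 hx)
  omega

theorem sparse {L : ℕ} (hg : Girth G L) {P : Finset V} (hne : P.Nonempty) (hP : P.card < L) :
    eIn G P + 2 ≤ 2 * P.card := by
  have := Finset.card_pos.2 hne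
  exact sparse_of_acy (P.card - 1) P (by omega) (acy_of_girth hg hP)

theorem pairs_card (S : Finset V) :
    ((S ×ˢ Finset.univ).filter fun p : V × V => G.Adj p.1 p.2).card = ∑ v ∈ S, (nb G v).card := by
  rw [Finset.card_filter, Finset.sum_product]
  apply Finset.sum_congr rfl
  intro v _
  rw [nb, Finset.card_filter]

theorem pairs_card' (S : Finset V) :
    ((Finset.univ ×ˢ S).filter fun p : V × V => G.Adj p.1 p.2).card = ∑ v ∈ S, (nb G v).card := by
  rw [← pairs_card]
  apply Finset.card_bij (fun p _ => (p.2, p.1))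
  · rintro ⟨x, y⟩ h
    rw [Finset.mem_filter, Finset.mem_product] at h ⊢
    exact ⟨⟨h.1.2, h.1.1⟩, h.2.symm⟩
  · rintro ⟨x, y⟩ _ ⟨x', y'⟩ _ h
    rw [Prod.mk.injEq] at h ⊢
    exact ⟨h.2, h.1⟩
  · rintro ⟨x, y⟩ h
    rw [Finset.mem_filter, Finset.mem_product] at h
    refine ⟨(y, x), ?_, rfl⟩
    rw [Finset.mem_filter, Finset.mem_product]
    exact ⟨⟨h.1.2, h.1.1⟩, h.2.symm⟩

theorem eIn_compl (h4 : ∀ v, (nb G v).card = 4) (X : Finset V) :
    4 * Fintype.card V ≤ eIn G Xᶜ + 8 * X.card := by
  have h1 : 4 * Fintype.card V =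
      ((Finset.univ ×ˢ Finset.univ).filter fun p : V × V => G.Adj p.1 p.2).card := by
    rw [pairs_card, Finset.sum_congr rfl (fun v _ => h4 v), Finset.sum_const, Finset.card_univ]
    simp [mul_comm]
  have h2 : ((Finset.univ ×ˢ Finset.univ).filter fun p : V × V => G.Adj p.1 p.2) ⊆
      (((Xᶜ ×ˢ Xᶜ).filter fun p : V × V => G.Adj p.1 p.2) ∪
        ((X ×ˢ Finset.univ).filter fun p : V × V => G.Adj p.1 p.2)) ∪
        ((Finset.univ ×ˢ X).filter fun p : V × V => G.Adj p.1 p.2) := by
    rintro ⟨x, y⟩ h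
    simp only [Finset.mem_union, Finset.mem_filter, Finset.mem_product, Finset.mem_univ,
      Finset.mem_compl, true_and, and_true] at h ⊢
    tauto
  have h3 := Finset.card_le_card h2
  have h5 := Finset.card_union_le ((((Xᶜ ×ˢ Xᶜ).filter fun p : V × V => G.Adj p.1 p.2) ∪
        ((X ×ˢ Finset.univ).filter fun p : V × V => G.Adj p.1 p.2)))
        ((Finset.univ ×ˢ X).filter fun p : V × V => G.Adj p.1 p.2)
  have h6 := Finset.card_union_le ((Xᶜ ×ˢ Xᶜ).filter fun p : V × V => G.Adj p.1 p.2)
        ((X ×ˢ Finset.univ).filter fun p : V × V => G.Adj p.1 p.2)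
  have h7 : ((X ×ˢ Finset.univ).filter fun p : V × V => G.Adj p.1 p.2).card = 4 * X.card := by
    rw [pairs_card, Finset.sum_congr rfl (fun v _ => h4 v), Finset.sum_const]
    simp [mul_comm]
  have h8 : ((Finset.univ ×ˢ X).filter fun p : V × V => G.Adj p.1 p.2).card = 4 * X.card := by
    rw [pairs_card', Finset.sum_congr rfl (fun v _ => h4 v), Finset.sum_const]
    simp [mul_comm]
  have h9 : ((Xᶜ ×ˢ Xᶜ).filter fun p : V × V => G.Adj p.1 p.2).card = eIn G Xᶜ := by
    unfold eIn
    congr
  omega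

theorem eIn_univ (h4 : ∀ v, (nb G v).card = 4) :
    eIn G (Finset.univ : Finset V) = 4 * Fintype.card V := by
  have h1 : 4 * Fintype.card V =
      ((Finset.univ ×ˢ Finset.univ).filter fun p : V × V => G.Adj p.1 p.2).card := by
    rw [pairs_card, Finset.sum_congr rfl (fun v _ => h4 v), Finset.sum_const, Finset.card_univ]
    simp [mul_comm]
  rw [h1]
  unfold eIn
  congr

theorem eIn_induce (X : Finset V) :
    eIn G Xᶜ ≤ eIn (G.induce {v | v ∉ X}) (Finset.univ : Finset {v | v ∉ X}) := by
  unfold eIn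
  refine le_trans (Finset.card_le_card ?_) (Finset.card_image_le
    (f := fun p : {v | v ∉ X} × {v | v ∉ X} => ((p.1 : V), (p.2 : V))))
  rintro ⟨x, y⟩ h
  rw [Finset.mem_filter, Finset.mem_product, Finset.mem_compl, Finset.mem_compl] at h
  rw [Finset.mem_image]
  refine ⟨(⟨x, h.1.1⟩, ⟨y, h.1.2⟩), ?_, rfl⟩
  rw [Finset.mem_filter, Finset.mem_product]
  exact ⟨⟨Finset.mem_univ _, Finset.mem_univ _⟩, h.2⟩

theorem nb_ncard (v : V) : (nb G v).card = (G.neighborSet v).ncard := by
  have : G.neighborSet v = (nb G v : Set V) := by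
    ext y; simp [mem_nb]
  rw [this, Set.ncard_coe_finset]

theorem girth_induce {L : ℕ} (hg : Girth G L) (S : Set V) : Girth (G.induce S) L := by
  intro u c hc
  have hinj : Function.Injective (SimpleGraph.Embedding.induce (G := G) S).toHom :=
    (SimpleGraph.Embedding.induce (G := G) S).injective
  have := hg _ _ (hc.map hinj)
  rwa [SimpleGraph.Walk.length_map] at this

/-- planar subgraphs of graphs of large girth are sparse -/
theorem planar_sparse {L m : ℕ} (hm : 1 ≤ m) (hL : 10 * m < L) (hg : Girth G L)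
    (h4 : ∀ v, (nb G v).card = 4) {X : Finset V} (hX : IsPlanar (G.induce {v | v ∉ X}))
    (hne : X.card < Fintype.card V) :
    m * (4 * Fintype.card V) < 2 * (m + 3) * (Fintype.card V - X.card) + m * (8 * X.card) := by
  have hcardY : (Finset.univ : Finset {v | v ∉ X}).card = Fintype.card V - X.card := by
    rw [Finset.card_univ]
    have : Fintype.card {v | v ∉ X} = Xᶜ.card := by
      rw [Fintype.card_of_subtype Xᶜ]
      intro x; simp
    rw [this, Finset.card_compl]
  have hY : (Finset.univ : Finset {v | v ∉ X}).Nonempty := by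
    rw [← Finset.card_pos, hcardY]; omega
  by_contra hcon
  push Not at hcon
  apply hX.1
  have h1 := eIn_compl h4 X
  have h2 := eIn_induce (G := G) X
  have h3 : m * (4 * Fintype.card V) ≤
      m * eIn (G.induce {v | v ∉ X}) (Finset.univ : Finset {v | v ∉ X}) + m * (8 * X.card) := by
    rw [← Nat.mul_add]
    apply Nat.mul_le_mul_left
    omega
  obtain ⟨f, hf1, hf2, hf3⟩ := goalC {v | v ∉ X} inferInstance (G.induce {v | v ∉ X}) 4 m
    (10 * m) hm (by
      intro v
      rw [← nb_ncard, ← h4 v.1]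
      refine Finset.card_le_card_of_injOn (fun w => (w : V)) ?_ (fun a _ b _ h => Subtype.ext h)
      intro w hw
      have := (mem_nb _).1 (Finset.mem_coe.1 hw)
      exact Finset.mem_coe.2 ((mem_nb G).2 this)) (by omega)
    (fun P hP hPc => sparse (girth_induce hg _) hP (by omega)) Finset.univ hY (by
      rw [hcardY]; omega)
  refine ⟨fun i => (f i : Set _), hf1, ?_, ?_⟩
  · intro i j hij
    exact Finset.disjoint_coe.mpr (hf2 i j hij)
  · intro i j hij
    obtain ⟨u, hu, v, hv, huv⟩ := hf3 i j hij.ne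
    exact ⟨u, hu, v, hv, huv⟩

end

end Pool.Agent.Helper78.DC
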