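import Pool.Agent.Helper78.DC.Glue
import Pool.Agent.Helper89.Plz.D

/-! Graphs of maximum degree at most four and large girth (problem MP_8e7d5e_co). -/

set_option autoImplicit false

namespace Pool.Agent.Helper78.DC

open Classical

noncomputable section

variable {V : Type} [Fintype V] {G : SimpleGraph V} {Γ : Type} [Group Γ] [Fintype Γ]
  {π : Sl G → Γ} {hπ : ∀ e, π e * π e = 1}

theorem nb_cov (h4 : ∀ v, (nb G v).card ≤ 4) (h1 : ∀ e, π e ≠ 1)
    (h2 : ∀ e f, e ≠ f → π e * π f ≠ 1) (a : V × Γ) : (nb (cov G π hπ) a).card = 4 := by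
  obtain ⟨v, γ⟩ := a
  have inj : ∀ e f : Sl G, π e = π f → e = f := by
    intro e f h
    by_contra hne
    exact h2 e f hne (by rw [h, hπ])
  have e1 : nb (cov G π hπ) (v, γ) = (nb G v).image (fun y => (y, γ)) ∪
      (Finset.univ : Finset (Fin (4 - (nb G v).card))).image
        (fun i => (v, γ * π ⟨v, i⟩)) := by
    ext ⟨y, δ⟩
    simp only [mem_nb, cov, Finset.mem_union, Finset.mem_image, Finset.mem_univ, true_and,
      Prod.mk.injEq]
    constructor
    · rintro ⟨-, ⟨rfl, h⟩ | ⟨rfl, ⟨v', i⟩, rfl, rfl⟩⟩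
      · exact Or.inl ⟨y, h, rfl, rfl⟩
      · exact Or.inr ⟨i, rfl, rfl⟩
    · rintro (⟨y', h, rfl, rfl⟩ | ⟨i, rfl, rfl⟩)
      · refine ⟨?_, Or.inl ⟨rfl, h⟩⟩
        intro h'
        exact h.ne (congrArg Prod.fst h')
      · refine ⟨?_, Or.inr ⟨rfl, ⟨v, i⟩, rfl, rfl⟩⟩
        intro h'
        have := congrArg Prod.snd h'
        simp only at this
        exact h1 ⟨v, i⟩ (left_eq_mul.1 this)
  rw [e1, Finset.card_union_of_disjoint, Finset.card_image_of_injective,
    Finset.card_image_of_injective, Finset.card_univ, Fintype.card_fin]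
  · have := h4 v
    omega
  · intro i j hij
    have := inj _ _ (mul_left_cancel (congrArg Prod.snd hij))
    simpa using this
  · intro y y' h
    exact congrArg Prod.fst h
  · rw [Finset.disjoint_left]
    rintro x hx hx'
    obtain ⟨y, hy, rfl⟩ := Finset.mem_image.1 hx
    obtain ⟨i, -, h⟩ := Finset.mem_image.1 hx'
    exact ((mem_nb G).1 hy).ne (congrArg Prod.fst h)

/-- a copy of `G` -/
def emb (hπ : ∀ e, π e * π e = 1) (γ : Γ) : G →g cov G π hπ where
  toFun v := (v, γ)
  map_rel' {a b} h := ⟨fun h' => h.ne (congrArg Prod.fst h'), Or.inl ⟨rfl, h⟩⟩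

theorem max_four {g : ℕ} (h18 : 18 ≤ g) (hg : Girth G g) (h4 : ∀ v, (nb G v).card ≤ 4) :
    ∃ T : Finset V, (T.card : ℝ) ≤ (1 / 3 + 4 / g) * Fintype.card V ∧
      ∀ (u : V) (c : G.Walk u u), c.IsCycle → ∃ x ∈ c.support, x ∈ T := by
  obtain ⟨Γ, iG, iF, π, hπ, hw⟩ := Pool.Agent.Helper89.Plz.packetD (Sl G) inferInstance g
  have h1 : ∀ e, π e ≠ 1 := by
    intro e
    have := hw [e] (by simp) (by simp; omega) (List.isChain_singleton e)
    simpa using this
  have h2 : ∀ e f, e ≠ f → π e * π f ≠ 1 := by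
    intro e f hef
    have := hw [e, f] (by simp) (by simp; omega) (by simp [hef])
    simpa using this
  obtain ⟨T, hT, hc⟩ := four_regular (G := cov G π hπ) h18 (girth_cov hg hw)
    (nb_cov h4 h1 h2)
  set c : ℝ := (1 / 3 + 4 / g) * Fintype.card V with hcdef
  have hsum : ∑ γ : Γ, ((Finset.univ.filter fun v : V => (v, γ) ∈ T).card : ℝ) = T.card := by
    have : T.card = ∑ γ : Γ, (Finset.univ.filter fun v : V => (v, γ) ∈ T).card := by
      rw [Finset.card_eq_sum_card_fiberwise (f := Prod.snd) (t := Finset.univ)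
        (fun _ _ => Finset.mem_univ _)]
      apply Finset.sum_congr rfl
      intro γ _
      symm
      apply Finset.card_bij (fun v _ => (v, γ))
      · intro v hv
        rw [Finset.mem_filter]
        exact ⟨(Finset.mem_filter.1 hv).2, rfl⟩
      · intro v _ v' _ h
        exact congrArg Prod.fst h
      · rintro ⟨v, δ⟩ h
        rw [Finset.mem_filter] at h
        obtain ⟨h3, h5⟩ := h
        simp only at h5
        subst h5
        exact ⟨v, by simp [h3], rfl⟩
    rw [this]
    push_cast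
    rfl
  have hex : ∃ γ : Γ, ((Finset.univ.filter fun v : V => (v, γ) ∈ T).card : ℝ) ≤ c := by
    by_contra hcon
    push Not at hcon
    have : ∑ γ : Γ, c < ∑ γ : Γ, ((Finset.univ.filter fun v : V => (v, γ) ∈ T).card : ℝ) :=
      Finset.sum_lt_sum_of_nonempty ⟨1, Finset.mem_univ _⟩ fun γ _ => hcon γ
    rw [hsum, Finset.sum_const, Finset.card_univ, nsmul_eq_mul, hcdef] at this
    rw [Fintype.card_prod] at hT
    push_cast at hT
    linarith
  obtain ⟨γ, hγ⟩ := hex
  refine ⟨Finset.univ.filter fun v : V => (v, γ) ∈ T, hγ, ?_⟩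
  intro u p hp
  have hp' : (p.map (emb hπ γ)).IsCycle := hp.map (fun a b h => congrArg Prod.fst h)
  obtain ⟨x, hx, hxT⟩ := hc _ _ hp'
  rw [SimpleGraph.Walk.support_map, List.mem_map] at hx
  obtain ⟨v, hv, rfl⟩ := hx
  exact ⟨v, hv, Finset.mem_filter.2 ⟨Finset.mem_univ _, hxT⟩⟩

end

end Pool.Agent.Helper78.DC
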