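import Pool.Agent.Helper78.DC.Sum

/-! Breaking the cycles of a pseudoforest of large girth (problem MP_8e7d5e_co). -/

set_option autoImplicit false

namespace Pool.Agent.Helper78.DC

open Classical

noncomputable section

variable {V : Type} [Fintype V] {G : SimpleGraph V} {o : V → V → Bool} {H : Finset V}

/-- every vertex of `H` has at most one in-neighbour in `H` -/
def Pf (G : SimpleGraph V) (o : V → V → Bool) (H : Finset V) : Prop :=
  ∀ v ∈ H, ∀ y ∈ H, ∀ y' ∈ H, G.Adj v y → G.Adj v y' → o y v = true → o y' v = true → y = y'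

theorem cycle_dir (hA : Anti G o) (hH : Pf G o H) {u : V} (c : G.Walk u u) (hc : c.IsCycle)
    (hs : ∀ x ∈ c.support, x ∈ H) :
    (∀ i < c.length, o (c.getVert i) (c.getVert (i + 1)) = true) ∨
      ∀ i < c.length, o (c.getVert (i + 1)) (c.getVert i) = true := by
  have h3 := hc.three_le_length
  have hm : ∀ i, c.getVert i ∈ H := fun i => hs _ (c.getVert_mem_support i)
  have hadj : ∀ i, i < c.length → G.Adj (c.getVert i) (c.getVert (i + 1)) := fun i hi =>
    c.adj_getVert_succ hi
  have nP : ∀ i, i < c.length → ¬ o (c.getVert i) (c.getVert (i + 1)) = true →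
      o (c.getVert (i + 1)) (c.getVert i) = true := by
    intro i hi h
    rw [hA _ _ (hadj i hi)]
    simpa using h
  have hstep : ∀ i, i + 1 < c.length → o (c.getVert i) (c.getVert (i + 1)) = true →
      o (c.getVert (i + 1)) (c.getVert (i + 1 + 1)) = true := by
    intro i hi h
    by_contra h'
    have h2 := nP (i + 1) hi h'
    have e := hH _ (hm (i + 1)) _ (hm i) _ (hm (i + 1 + 1)) (hadj i (by omega)).symm
      (hadj (i + 1) hi) h h2
    by_cases hi0 : i = 0
    · have := hc.getVert_injOn' (show i ∈ {i | i ≤ c.length - 1} by simp only [Set.mem_setOf_eq]; omega)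
        (show i + 1 + 1 ∈ {i | i ≤ c.length - 1} by simp only [Set.mem_setOf_eq]; omega) e
      omega
    · have := hc.getVert_injOn (show i ∈ {i | 1 ≤ i ∧ i ≤ c.length} by
        simp only [Set.mem_setOf_eq]; omega)
        (show i + 1 + 1 ∈ {i | 1 ≤ i ∧ i ≤ c.length} by simp only [Set.mem_setOf_eq]; omega) e
      omega
  have hup : ∀ i, o (c.getVert i) (c.getVert (i + 1)) = true → ∀ k, i + k < c.length →
      o (c.getVert (i + k)) (c.getVert (i + k + 1)) = true := by
    intro i h k
    induction k with
    | zero => intro _; exact h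
    | succ k ih => intro hk; exact hstep (i + k) hk (ih (by omega))
  by_cases h0 : o (c.getVert 0) (c.getVert (0 + 1)) = true
  · left
    intro i hi
    have := hup 0 h0 i (by omega)
    rwa [Nat.zero_add] at this
  · right
    intro i hi
    apply nP i hi
    intro h
    have h1 := hup i h (c.length - 1 - i) (by omega)
    have e1 : i + (c.length - 1 - i) = c.length - 1 := by omega
    have e2 : c.length - 1 + 1 = c.length := by omega
    rw [e1, e2, c.getVert_length] at h1
    have h2 := nP 0 (by omega) h0
    rw [c.getVert_zero] at h2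
    have a1 := hadj (c.length - 1) (by omega)
    rw [e2, c.getVert_length] at a1
    have a2 := hadj 0 (by omega)
    rw [c.getVert_zero] at a2
    have hu : u ∈ H := hs u c.start_mem_support
    have e := hH u hu _ (hm (c.length - 1)) _ (hm (0 + 1)) a1.symm a2 h1 h2
    have := hc.getVert_injOn' (show c.length - 1 ∈ {i | i ≤ c.length - 1} by simp)
        (show 0 + 1 ∈ {i | i ≤ c.length - 1} by simp only [Set.mem_setOf_eq]; omega) e
    omega

theorem closed (hA : Anti G o) (hH : Pf G o H) {u : V} (d : G.Walk u u) (hd : d.IsCycle)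
    (hs : ∀ x ∈ d.support, x ∈ H) {y z : V} (hyz : G.Adj z y) (hy : y ∈ H) (ho : o y z = true)
    (hz : z ∈ d.support) : y ∈ d.support := by
  have h3 := hd.three_le_length
  have hm : ∀ i, d.getVert i ∈ H := fun i => hs _ (d.getVert_mem_support i)
  have hzH := hs z hz
  obtain ⟨i, hi, hil⟩ := SimpleGraph.Walk.mem_support_iff_exists_getVert.1 hz
  rcases cycle_dir hA hH d hd hs with hf | hb
  · have key : ∃ j, j < d.length ∧ d.getVert (j + 1) = z := by
      by_cases h0 : i = 0
      · refine ⟨d.length - 1, by omega, ?_⟩
        rw [← hi, h0, d.getVert_zero, show d.length - 1 + 1 = d.length by omega, d.getVert_length]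
      · exact ⟨i - 1, by omega, by rw [← hi]; congr 1; omega⟩
    obtain ⟨j, hj, e⟩ := key
    have h1 := hf j hj
    have a1 := d.adj_getVert_succ hj
    rw [e] at h1 a1
    rw [hH z hzH y hy _ (hm j) hyz a1.symm ho h1]
    exact d.getVert_mem_support j
  · have key : ∃ j, j < d.length ∧ d.getVert j = z := by
      by_cases h0 : i = d.length
      · refine ⟨0, by omega, ?_⟩
        rw [← hi, h0, d.getVert_zero, d.getVert_length]
      · exact ⟨i, by omega, hi⟩
    obtain ⟨j, hj, e⟩ := key
    have h1 := hb j hj
    have a1 := d.adj_getVert_succ hj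
    rw [e] at h1 a1
    rw [hH z hzH y hy _ (hm (j + 1)) hyz a1 ho h1]
    exact d.getVert_mem_support (j + 1)

theorem meets (hA : Anti G o) (hH : Pf G o H) {x : V} (c : G.Walk x x) (hc : c.IsCycle)
    (hs : ∀ x ∈ c.support, x ∈ H) {u : V} (d : G.Walk u u) (hd : d.IsCycle)
    (hds : ∀ x ∈ d.support, x ∈ H) {v : V} (hvc : v ∈ c.support) (hvd : v ∈ d.support) :
    x ∈ d.support := by
  have hm : ∀ i, c.getVert i ∈ H := fun i => hs _ (c.getVert_mem_support i)
  obtain ⟨i, hi, hil⟩ := SimpleGraph.Walk.mem_support_iff_exists_getVert.1 hvc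
  rw [← hi] at hvd
  rcases cycle_dir hA hH c hc hs with hf | hb
  · have key : ∀ i, i ≤ c.length → c.getVert i ∈ d.support → c.getVert 0 ∈ d.support := by
      intro i
      induction i with
      | zero => intro _ h; exact h
      | succ i ih =>
        intro hi h
        exact ih (by omega) (closed hA hH d hd hds (c.adj_getVert_succ (by omega)).symm (hm i)
          (hf i (by omega)) h)
    have := key i hil hvd
    rwa [c.getVert_zero] at this
  · have key : ∀ k i, i + k = c.length → c.getVert i ∈ d.support →
        c.getVert c.length ∈ d.support := by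
      intro k
      induction k with
      | zero => intro i hi h; rwa [← hi, Nat.add_zero]
      | succ k ih =>
        intro i hi h
        exact ih (i + 1) (by omega) (closed hA hH d hd hds (c.adj_getVert_succ (by omega))
          (hm (i + 1)) (hb i (by omega)) h)
    have := key (c.length - i) i (by omega) hvd
    rwa [c.getVert_length] at this

theorem card_support {u : V} (c : G.Walk u u) (hc : c.IsCycle) :
    c.length ≤ c.support.toFinset.card := by
  have h1 : c.support.tail.toFinset.card = c.length := by
    rw [List.toFinset_card_of_nodup hc.support_nodup, List.length_tail,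
      SimpleGraph.Walk.length_support, Nat.add_sub_cancel]
  rw [← h1]
  apply Finset.card_le_card
  intro x hx
  rw [List.mem_toFinset] at hx ⊢
  exact List.mem_of_mem_tail hx

theorem pf (hA : Anti G o) {g : ℕ} (hg : Girth G g) : ∀ (n : ℕ) (H : Finset V), H.card ≤ n →
    Pf G o H → ∃ Z ⊆ H, g * Z.card ≤ H.card ∧
      ∀ (u : V) (c : G.Walk u u), c.IsCycle → ∃ x ∈ c.support, x ∉ H ∨ x ∈ Z := by
  intro n
  induction n with
  | zero =>
    intro H hn _
    refine ⟨∅, by simp, by simp, ?_⟩
    intro u c hc
    have : H = ∅ := Finset.card_eq_zero.1 (by omega)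
    exact ⟨u, c.start_mem_support, Or.inl (by simp [this])⟩
  | succ n ih =>
    intro H hn hH
    by_cases hex : ∃ (x : V) (c : G.Walk x x), c.IsCycle ∧ ∀ y ∈ c.support, y ∈ H
    · obtain ⟨x, c, hc, hs⟩ := hex
      set C := c.support.toFinset with hC
      have hCH : C ⊆ H := by
        intro y hy
        exact hs y (List.mem_toFinset.1 hy)
      have hxC : x ∈ C := List.mem_toFinset.2 c.start_mem_support
      have hcard : g ≤ C.card := (hg x c hc).trans (card_support c hc)
      have hsd : (H \ C).card = H.card - C.card := Finset.card_sdiff_of_subset hCH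
      have hle : C.card ≤ H.card := Finset.card_le_card hCH
      have hpos : 0 < C.card := Finset.card_pos.2 ⟨x, hxC⟩
      obtain ⟨Z', hZ', hcZ, hacy⟩ := ih (H \ C) (by omega) (by
        intro v hv y hy y' hy'
        exact hH v (Finset.sdiff_subset hv) y (Finset.sdiff_subset hy) y'
          (Finset.sdiff_subset hy'))
      refine ⟨insert x Z', ?_, ?_, ?_⟩
      · intro z hz
        rcases Finset.mem_insert.1 hz with h | h
        · rw [h]; exact hCH hxC
        · exact Finset.sdiff_subset (hZ' h)
      · have := Finset.card_insert_le x Z'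
        have h1 : g * (insert x Z').card ≤ g * (Z'.card + 1) := Nat.mul_le_mul_left g this
        rw [Nat.mul_add, Nat.mul_one] at h1
        omega
      · intro u d hd
        by_contra hcon
        push Not at hcon
        have hds : ∀ y ∈ d.support, y ∈ H := fun y hy => (hcon y hy).1
        obtain ⟨y, hy, h⟩ := hacy u d hd
        rcases h with h | h
        · have hyC : y ∈ C := by
            by_contra hyC
            exact h (Finset.mem_sdiff.2 ⟨hds y hy, hyC⟩)
          have := meets hA hH c hc hs d hd hds (List.mem_toFinset.1 hyC) hy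
          exact (hcon x this).2 (Finset.mem_insert_self _ _)
        · exact (hcon y hy).2 (Finset.mem_insert_of_mem h)
    · push Not at hex
      exact ⟨∅, by simp, by simp, fun u c hc => by
        obtain ⟨x, hx, h⟩ := hex u c hc
        exact ⟨x, hx, Or.inl h⟩⟩

end

end Pool.Agent.Helper78.DC
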