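import Pool.Agent.Helper78.DC.PF

/-! Four-regular graphs of large girth (problem MP_8e7d5e_co). -/

set_option autoImplicit false

namespace Pool.Agent.Helper78.DC

open Classical

noncomputable section

variable {V : Type} [Fintype V] {G : SimpleGraph V}

/-- out-degree -/
def od (G : SimpleGraph V) (o : V → V → Bool) (v : V) : ℕ :=
  oc (nb G v) (fun y => o y v) fun _ => false

theorem in_out (o : V → V → Bool) (h4 : ∀ v, (nb G v).card = 4) (v : V) :
    ((nb G v).filter fun y => o y v = true).card + od G o v = 4 := by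
  rw [← h4 v]
  unfold od oc
  rw [← Finset.card_filter_add_card_filter_not (s := nb G v) (fun y => o y v = true)]
  congr 2
  apply Finset.filter_congr
  intro y _
  simp

theorem sum_od {o : V → V → Bool} (hA : Anti G o) (h4 : ∀ v, (nb G v).card = 4) :
    ∑ v, (od G o v : ℤ) = 2 * (Fintype.card V : ℤ) := by
  have h1 : ∑ v, ((((nb G v).filter fun y => o y v = true).card : ℕ) : ℤ) =
      ∑ v, (od G o v : ℤ) := by
    have e1 : ∀ v, ((((nb G v).filter fun y => o y v = true).card : ℕ) : ℤ) =
        ∑ y ∈ nb G v, if o y v = true then 1 else 0 := by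
      intro v
      rw [Finset.card_filter]
      push_cast
      rfl
    have e2 : ∀ v, (od G o v : ℤ) = ∑ y ∈ nb G v, if o v y = true then 1 else 0 := by
      intro v
      unfold od oc
      rw [Finset.card_filter]
      push_cast
      apply Finset.sum_congr rfl
      intro y hy
      rw [hA v y ((mem_nb G).1 hy)]
      cases o v y <;> simp
    rw [Finset.sum_congr rfl (fun v _ => e1 v), Finset.sum_congr rfl (fun v _ => e2 v)]
    exact swap_sum (G := G) fun v y => if o y v = true then 1 else 0
  have h2 : ∑ v, ((((nb G v).filter fun y => o y v = true).card : ℕ) : ℤ) +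
      ∑ v, (od G o v : ℤ) = 4 * (Fintype.card V : ℤ) := by
    rw [← Finset.sum_add_distrib]
    have : ∀ v ∈ (Finset.univ : Finset V),
        ((((nb G v).filter fun y => o y v = true).card : ℕ) : ℤ) + (od G o v : ℤ) = 4 := by
      intro v _
      exact_mod_cast in_out o h4 v
    rw [Finset.sum_congr rfl this]
    simp
    ring
  linarith

theorem four_regular {g : ℕ} (h18 : 18 ≤ g) (hg : Girth G g) (h4 : ∀ v, (nb G v).card = 4) :
    ∃ T : Finset V, (T.card : ℝ) ≤ (1 / 3 + 4 / g) * Fintype.card V ∧
      ∀ (u : V) (c : G.Walk u u), c.IsCycle → ∃ x ∈ c.support, x ∈ T := by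
  obtain ⟨o, hA, ho⟩ := exists_opt (G := G)
  set S : Finset V := Finset.univ.filter fun v => od G o v ≤ 2 with hS
  set H : Finset V := Finset.univ.filter fun v => 3 ≤ od G o v with hH
  have hPf : Pf G o H := by
    intro v hv y _ y' _ hy hy' h1 h2
    have h3 : 3 ≤ od G o v := (Finset.mem_filter.1 hv).2
    have h5 := in_out o h4 v
    have h6 : ((nb G v).filter fun y => o y v = true).card ≤ 1 := by omega
    exact Finset.card_le_one.1 h6 y (Finset.mem_filter.2 ⟨(mem_nb G).2 hy, h1⟩) y'
      (Finset.mem_filter.2 ⟨(mem_nb G).2 hy', h2⟩)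
  obtain ⟨Z, hZH, hZ, hac⟩ := pf hA hg H.card H le_rfl hPf
  have hHc : H.card ≤ Fintype.card V := Finset.card_le_univ H
  set R : ℕ := (g - 1) / 2 with hR
  have hRg : g ≤ 2 * R + 2 := by omega
  have ht := total hA ho h4 (R := R) (fun u c hc => le_trans (by omega) (hg u c hc))
  have hsum : 3 * (S.card : ℤ) ≤ Fintype.card V + 2 * ∑ v, cost0 G o v := by
    have e1 : (3 * (S.card : ℤ)) = ∑ v, if od G o v ≤ 2 then 3 else 0 := by
      rw [hS, Finset.card_filter]
      push_cast
      rw [Finset.mul_sum]
      apply Finset.sum_congr rfl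
      intro v _
      split_ifs <;> norm_num
    have e2 : ∀ v : V, (if od G o v ≤ 2 then (3 : ℤ) else 0) ≤
        1 + 2 * cost0 G o v + (2 - (od G o v : ℤ)) := by
      intro v
      have h5 := in_out o h4 v
      have h6 : od G o v ≤ 4 := by omega
      have h7 : cost0 G o v = w (od G o v) := rfl
      rw [h7]
      generalize od G o v = k at h6 ⊢
      interval_cases k <;> simp [w, wN]
    rw [e1]
    refine (Finset.sum_le_sum fun v _ => e2 v).trans ?_
    rw [Finset.sum_add_distrib, Finset.sum_add_distrib, Finset.sum_sub_distrib, sum_od hA h4,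
      ← Finset.mul_sum]
    simp
    linarith
  refine ⟨S ∪ Z, ?_, ?_⟩
  · have hc : ((S ∪ Z).card : ℝ) ≤ S.card + Z.card := by
      exact_mod_cast Finset.card_union_le S Z
    have gpos : (0 : ℝ) < g := by
      have : (18 : ℝ) ≤ g := by exact_mod_cast h18
      linarith
    have g18 : (18 : ℝ) ≤ g := by exact_mod_cast h18
    have hRr : (g : ℝ) ≤ 2 * R + 2 := by exact_mod_cast hRg
    have hn : (0 : ℝ) ≤ Fintype.card V := by positivity
    set n : ℝ := (Fintype.card V : ℝ) with hndef
    set W : ℝ := ((∑ v, cost0 G o v : ℤ) : ℝ) with hW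
    have t1 : (R : ℝ) * W ≤ 2 * n := by
      rw [hW, hndef]; exact_mod_cast ht
    have t2 : 3 * (S.card : ℝ) ≤ n + 2 * W := by
      rw [hW, hndef]; exact_mod_cast hsum
    have t3 : (g : ℝ) * Z.card ≤ n := by
      have : (g : ℝ) * Z.card ≤ H.card := by exact_mod_cast hZ
      have : (H.card : ℝ) ≤ n := by rw [hndef]; exact_mod_cast hHc
      linarith
    have z1 : (Z.card : ℝ) ≤ n / g := by
      rw [le_div_iff₀ gpos]; linarith
    have hW0 : 0 ≤ W := by
      rw [hW]
      have : (0 : ℤ) ≤ ∑ v, cost0 G o v := Finset.sum_nonneg fun v _ => w_nonneg _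
      exact_mod_cast this
    have w1 : W ≤ (9 / 2) * (n / g) := by
      have r1 : (g - 2) * W ≤ 4 * n := by nlinarith
      rw [mul_div_assoc', le_div_iff₀ gpos]
      have r2 : 8 * g ≤ 9 * (g - 2 : ℝ) := by linarith
      nlinarith
    have : (1 / 3 + 4 / (g : ℝ)) * n = n / 3 + 4 * (n / g) := by ring
    rw [this]
    linarith
  · intro u c hc
    obtain ⟨x, hx, h⟩ := hac u c hc
    refine ⟨x, hx, ?_⟩
    rcases h with h | h
    · apply Finset.mem_union_left
      rw [hS, Finset.mem_filter]
      refine ⟨Finset.mem_univ _, ?_⟩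
      by_contra hx3
      exact h (Finset.mem_filter.2 ⟨Finset.mem_univ _, by omega⟩)
    · exact Finset.mem_union_right _ h

end

end Pool.Agent.Helper78.DC
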