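import Pool.Agent.Helper78.DC.Flip

/-! Summation of the local inequality (problem MP_8e7d5e_co). -/

set_option autoImplicit false

namespace Pool.Agent.Helper78.DC

open Classical

noncomputable section

variable {V : Type} [Fintype V] {G : SimpleGraph V}

/-- `o` is an orientation: `o x y` says that the edge `xy` is directed from `x` to `y` -/
def Anti (G : SimpleGraph V) (o : V → V → Bool) : Prop := ∀ x y, G.Adj x y → o y x = !o x y

theorem exists_anti : ∃ o, Anti G o := by
  let e := Fintype.equivFin V
  refine ⟨fun x y => decide (e x < e y), ?_⟩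
  intro x y h
  have : e x ≠ e y := fun h' => h.ne (e.injective h')
  rcases lt_or_gt_of_ne this with h1 | h1
  · simp [h1, not_lt.2 h1.le]
  · simp [h1, not_lt.2 h1.le]

theorem cost0_flip (o : V → V → Bool) (X : Set (Sym2 V)) (u : V) :
    cost0 G (fun x y => xor (o x y) (decide (s(x, y) ∈ X))) u = cost G o X u := by
  unfold cost0 cost
  congr 1
  unfold oc
  congr 1
  apply Finset.filter_congr
  intro y _
  show xor (o y u) (decide (s(y, u) ∈ X)) = false ↔ o y u = decide (s(u, y) ∈ X)
  rw [Sym2.eq_swap (a := u)]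
  generalize decide (s(y, u) ∈ X) = b
  cases o y u <;> cases b <;> simp

theorem exists_opt : ∃ o, Anti G o ∧ Opt G o := by
  obtain ⟨o0, ho0⟩ := exists_anti (G := G)
  obtain ⟨o, ho, hmin⟩ := Finset.exists_min_image
    (Finset.univ.filter fun o : V → V → Bool => Anti G o) (fun o => ∑ u, cost0 G o u)
    ⟨o0, by simp [ho0]⟩
  have ho := (Finset.mem_filter.1 ho).2
  refine ⟨o, ho, ?_⟩
  intro X
  have h := hmin (fun x y => xor (o x y) (decide (s(x, y) ∈ X))) (by
    rw [Finset.mem_filter]
    refine ⟨Finset.mem_univ _, ?_⟩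
    intro x y hxy
    show xor (o y x) (decide (s(y, x) ∈ X)) = !(xor (o x y) (decide (s(x, y) ∈ X)))
    rw [ho x y hxy, Sym2.eq_swap (a := y)]
    cases o x y <;> cases decide (s(x, y) ∈ X) <;> rfl)
  refine h.trans_eq ?_
  exact Finset.sum_congr rfl fun u _ => cost0_flip o X u

theorem w_le2 (k : ℕ) : w k ≤ 2 := w_le k

theorem D_le (o : V → V → Bool) (r : ℕ) (x v : V) : D G o r x v ≤ 2 := by
  cases r with
  | zero =>
    unfold D cost0
    have := w_le (oc (nb G x) (fun y => o y x) fun y => decide (y = v))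
    have := w_nonneg (oc (nb G x) (fun y => o y x) fun _ => false)
    linarith
  | succ r =>
    have h := (D_succ_spec (G := G) o r x v).2 (fun y => decide (y = v)) (by simp)
    refine h.trans ?_
    unfold vl
    rw [Finset.sum_eq_zero]
    · have := w_le (oc (nb G x) (fun y => o y x) fun y => decide (y = v))
      have := w_nonneg (oc (nb G x) (fun y => o y x) fun _ => false)
      linarith
    · intro z hz
      have : z ≠ v := Finset.ne_of_mem_erase hz
      simp [this]

theorem le_D {o : V → V → Bool} (ho : Opt G o) {r : ℕ} (hg : Girth G (2 * r + 3)) {x v : V}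
    (hxv : G.Adj x v) : -2 ≤ D G o r x v := by
  have h := opt_local ho hg v fun y => decide (y = x)
  rw [Finset.sum_eq_single x] at h
  · simp only [decide_true, if_true] at h
    have := w_le (oc (nb G v) (fun y => o y v) fun y => decide (y = x))
    have := w_nonneg (oc (nb G v) (fun y => o y v) fun _ => false)
    unfold cost0 at h
    linarith
  · intro y _ hy
    simp [hy]
  · intro hx
    exact absurd ((mem_nb G).2 hxv.symm) hx

/-- the potential -/
def Pt (G : SimpleGraph V) (o : V → V → Bool) (r : ℕ) : ℤ :=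
  ∑ v, ∑ y ∈ nb G v, hl (o y v) (D G o r y v)

theorem swap_sum (f : V → V → ℤ) : ∑ v, ∑ y ∈ nb G v, f v y = ∑ v, ∑ y ∈ nb G v, f y v := by
  simp only [nb, Finset.sum_filter]
  rw [Finset.sum_comm]
  apply Finset.sum_congr rfl
  intro x _
  apply Finset.sum_congr rfl
  intro y _
  simp only [G.adj_comm x y]

theorem step {o : V → V → Bool} (hA : Anti G o) (ho : Opt G o) (h4 : ∀ v, (nb G v).card = 4)
    {r : ℕ} (hg : Girth G (2 * r + 3)) :
    2 * ∑ v, cost0 G o v ≤ Pt G o r - Pt G o (r + 1) := by
  have e : Pt G o (r + 1) = ∑ v, ∑ y ∈ nb G v, hl (!(o y v)) (D G o (r + 1) v y) := by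
    unfold Pt
    rw [swap_sum]
    apply Finset.sum_congr rfl
    intro v _
    apply Finset.sum_congr rfl
    intro y hy
    rw [hA y v ((mem_nb G).1 hy).symm]
  rw [e]
  unfold Pt
  rw [← Finset.sum_sub_distrib, Finset.mul_sum]
  apply Finset.sum_le_sum
  intro v _
  rw [← Finset.sum_sub_distrib]
  exact local_ineq (nb G v) (h4 v) (fun y => o y v) (fun y => D G o r y v)
    (fun y hy => ⟨le_D ho hg ((mem_nb G).1 hy).symm, D_le o r y v⟩)
    (fun φ => opt_local ho hg v φ) (fun y => D G o (r + 1) v y)
    (fun y _ => (D_succ_spec o r v y).1) (fun y _ => (D_succ_spec o r v y).2)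

theorem total {o : V → V → Bool} (hA : Anti G o) (ho : Opt G o) (h4 : ∀ v, (nb G v).card = 4)
    {R : ℕ} (hg : Girth G (2 * R + 1)) :
    R * ∑ v, cost0 G o v ≤ 2 * (Fintype.card V : ℤ) := by
  have key : ∀ k : ℕ, k ≤ R → 2 * (k * ∑ v, cost0 G o v) ≤ Pt G o 0 - Pt G o k := by
    intro k
    induction k with
    | zero => intro _; simp
    | succ k ih =>
      intro hk
      have h1 := ih (by omega)
      have h2 := step hA ho h4 (r := k) (fun u c hc => le_trans (by omega) (hg u c hc))
      push_cast
      linarith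
  have h := key R le_rfl
  have h0 : Pt G o 0 ≤ 0 := by
    unfold Pt
    apply Finset.sum_nonpos
    intro v _
    apply Finset.sum_nonpos
    intro y _
    exact hl_le _ _
  have h1 : -(4 * (Fintype.card V : ℤ)) ≤ Pt G o R := by
    unfold Pt
    have : -(4 * (Fintype.card V : ℤ)) = ∑ v : V, ∑ y ∈ nb G v, (-1 : ℤ) := by
      rw [Finset.sum_congr rfl (fun v _ => by rw [Finset.sum_const, h4 v])]
      simp
      ring
    rw [this]
    apply Finset.sum_le_sum
    intro v _
    apply Finset.sum_le_sum
    intro y _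
    exact le_hl _ _
  linarith

end

end Pool.Agent.Helper78.DC
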